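import Pool.Agent.Y186.MS.Stm

/-! # Exceptional sets between a countable set and a G_delta set (project MS of helper186) -/

open Complex Metric Set Filter Topology MeasureTheory
open scoped ComplexConjugate ENNReal NNReal
open Pool.Agent.Results.MP_4c43cc_an.ShiftSet

namespace Pool.Agent.Y186.MS

lemma coeff_zero' (w : ℂ) (m : ℕ) : taylorCoeff (fun z => (fun _ : ℂ => (0:ℂ)) (mob w z)) m = 0 := by
  apply coeff_unique (C := fun _ => 0)
  intro z _
  simp only [zero_mul]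
  exact hasSum_zero

/-- between a countable set and a G_delta set -/
def S_AB : Prop := ∀ A B : Set ℂ, A.Countable → A ⊆ B → B ⊆ ball (0:ℂ) 1 → IsGδ B →
  ∃ f : ℂ → ℂ, DifferentiableOn ℂ f (ball 0 1) ∧ A ⊆ ball (0:ℂ) 1 \ shiftSet f ∧ ball (0:ℂ) 1 \ shiftSet f ⊆ B

theorem t_AB (h : S_MASTER) : S_AB := by
  intro A B hc hAB hB hG
  by_cases hne : A.Nonempty
  · obtain ⟨e, he⟩ := hc.exists_eq_range hne
    obtain ⟨U, hUo, hU⟩ := isGδ_iff_eq_iInter_nat.mp hG
    set V : ℕ → Set ℂ := fun k => ⋂ i ∈ Finset.range (k + 1), U i with hV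
    have hVo : ∀ k, IsOpen (V k) := fun k => isOpen_biInter_finset (fun i _ => hUo i)
    have hEV : ∀ k, B ⊆ V k := by
      intro k x hx
      rw [hV]
      simp only [Set.mem_iInter]
      intro i _
      have := hU ▸ hx
      exact Set.mem_iInter.mp this i
    have heA : ∀ l, e l ∈ A := fun l => by rw [he]; exact ⟨l, rfl⟩
    have hr : ∀ j : ℕ, ∃ r : ℝ, 0 < r ∧ ball (e (Nat.unpair j).1) r ⊆ V j := fun j =>
      Metric.isOpen_iff.mp (hVo j) _ (hEV j (hAB (heA _)))
    choose r hr0 hrV using hr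
    obtain ⟨f, δ, hδ0, hδr, hf, h1, h2⟩ := h (fun j => e (Nat.unpair j).1) r
      (fun j => mem_ball_zero_iff.mp (hB (hAB (heA _)))) hr0
    refine ⟨f, hf, ?_, ?_⟩
    · intro w hwA
      refine ⟨hB (hAB hwA), fun hw => ?_⟩
      rw [he] at hwA
      obtain ⟨l, hl⟩ := hwA
      refine h2 w hw.1 ?_ hw
      rw [Filter.frequently_atTop]
      intro a
      refine ⟨Nat.pair l a, Nat.right_le_pair _ _, ?_⟩
      simp only [Nat.unpair_pair]
      rw [hl]
      exact mem_ball_self (hδ0 _)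
    · rintro w ⟨hw, hwf⟩
      by_contra hwE
      refine hwf (h1 w hw ?_)
      rw [hU, Set.mem_iInter, not_forall] at hwE
      obtain ⟨k, hk⟩ := hwE
      filter_upwards [eventually_ge_atTop k] with j hj hwj
      have h3 := hrV j hwj
      rw [hV] at h3
      simp only [Set.mem_iInter] at h3
      exact hk (h3 k (Finset.mem_range.mpr (by omega)))
  · have hE0 : A = ∅ := Set.not_nonempty_iff_eq_empty.mp hne
    subst hE0
    refine ⟨fun _ => 0, differentiableOn_const _, Set.empty_subset _, ?_⟩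
    rintro w ⟨hw, hwf⟩
    exfalso
    apply hwf
    refine ⟨hw, ?_⟩
    have : (fun n => ‖taylorCoeff (fun z => (fun _ : ℂ => (0:ℂ)) (mob w z)) n‖) = fun _ => 0 := by
      ext n; rw [coeff_zero' w n, norm_zero]
    rw [this]
    exact summable_zero

/-- countable exceptional sets -/
theorem t_CTB' (h : S_AB) : S_CTB := by
  intro E hE hc hG
  obtain ⟨f, hf, h1, h2⟩ := h E E hc le_rfl hE hG
  refine ⟨f, hf, ?_⟩
  have h3 : ball (0:ℂ) 1 \ shiftSet f = E := h2.antisymm h1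
  have h4 : shiftSet f ⊆ ball (0:ℂ) 1 := fun w hw => hw.1
  rw [← h3, Set.sdiff_sdiff_cancel_left h4]

/-- the very small radii -/
noncomputable def rr (j : ℕ) : ℝ := (1 / 2) ^ (j ^ 2) / 2

lemma rr_pos (j : ℕ) : 0 < rr j := by unfold rr; positivity

lemma diam_le (x : ℂ) (r : ℝ) : ediam (ball x r) ≤ ENNReal.ofReal (2 * r) := by
  refine ediam_le (fun y hy z hz => ?_)
  rw [edist_dist]
  refine ENNReal.ofReal_le_ofReal ?_
  have h1 := mem_ball.mp hy
  have h2 := mem_ball.mp hz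
  have h3 := dist_triangle_right y z x
  linarith

lemma dim0 (b : ℕ → ℂ) (B : Set ℂ) (hB : ∀ n, B ⊆ ⋃ j, ball (b (j + n)) (rr (j + n))) : dimH B = 0 := by
  have hkey : ∀ d : ℝ≥0, 0 < d → dimH B ≤ d := by
    intro d hd
    apply dimH_le_of_hausdorffMeasure_ne_top
    have hterm : ∀ n j : ℕ, ediam (ball (b (j + n)) (rr (j + n))) ^ (d:ℝ) ≤ (ENNReal.ofReal (1 / 2) ^ (d:ℝ)) ^ j := by
      intro n j
      have h1 := diam_le (b (j + n)) (rr (j + n))
      have h2 : 2 * rr (j + n) ≤ (1 / 2) ^ j := by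
        unfold rr
        have : ((1:ℝ) / 2) ^ ((j + n) ^ 2) ≤ (1 / 2) ^ j :=
          pow_le_pow_of_le_one (by norm_num) (by norm_num)
            ((Nat.le_add_right j n).trans (Nat.le_self_pow two_ne_zero _))
        linarith
      calc ediam (ball (b (j + n)) (rr (j + n))) ^ (d:ℝ) ≤ (ENNReal.ofReal ((1 / 2) ^ j)) ^ (d:ℝ) := by
            gcongr
            exact h1.trans (ENNReal.ofReal_le_ofReal h2)
        _ = (ENNReal.ofReal (1 / 2) ^ (d:ℝ)) ^ j := by
            rw [ENNReal.ofReal_pow (by norm_num), ← ENNReal.rpow_natCast, ← ENNReal.rpow_natCast,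
              ← ENNReal.rpow_mul, ← ENNReal.rpow_mul, mul_comm]
    have hq : ENNReal.ofReal (1 / 2) ^ (d:ℝ) < 1 := by
      apply ENNReal.rpow_lt_one _ (by exact_mod_cast hd)
      rw [ENNReal.ofReal_lt_one]; norm_num
    have hsum : ∑' j : ℕ, (ENNReal.ofReal (1 / 2) ^ (d:ℝ)) ^ j ≠ ∞ := by
      rw [ENNReal.tsum_geometric]
      rw [ENNReal.inv_ne_top]
      exact (tsub_pos_of_lt hq).ne'
    have hle : μH[(d:ℝ)] B ≤ liminf (fun n : ℕ => ∑' j : ℕ, ediam (ball (b (j + n)) (rr (j + n))) ^ (d:ℝ)) atTop := by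
      refine Measure.hausdorffMeasure_le_liminf_tsum (d:ℝ) B (fun n : ℕ => ENNReal.ofReal ((1 / 2) ^ n)) ?_
        (fun n j => ball (b (j + n)) (rr (j + n))) ?_ ?_
      · have := ENNReal.tendsto_ofReal (tendsto_pow_atTop_nhds_zero_of_lt_one (r := (1:ℝ) / 2) (by norm_num) (by norm_num))
        simpa using this
      · refine Filter.Eventually.of_forall (fun n j => ?_)
        refine (diam_le _ _).trans (ENNReal.ofReal_le_ofReal ?_)
        unfold rr
        have : ((1:ℝ) / 2) ^ ((j + n) ^ 2) ≤ (1 / 2) ^ n :=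
          pow_le_pow_of_le_one (by norm_num) (by norm_num)
            ((Nat.le_add_left n j).trans (Nat.le_self_pow two_ne_zero _))
        linarith
      · exact Filter.Eventually.of_forall (fun n => hB n)
    refine ne_top_of_le_ne_top hsum (hle.trans ?_)
    refine (Filter.liminf_le_liminf (v := fun _ : ℕ => ∑' j : ℕ, (ENNReal.ofReal (1 / 2) ^ (d:ℝ)) ^ j)
      (Filter.Eventually.of_forall (fun n => ENNReal.tsum_le_tsum (hterm n)))).trans ?_
    rw [liminf_const]
  refine le_antisymm ?_ zero_le'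
  refine ENNReal.le_of_forall_pos_le_add (fun ε hε _ => ?_)
  rw [zero_add]
  exact hkey ε hε

/-- a meagre shift set whose complement has Hausdorff dimension zero -/
def S_MEB : Prop := ∃ f : ℂ → ℂ, DifferentiableOn ℂ f (ball 0 1) ∧ IsMeagre (shiftSet f) ∧
  dimH (ball (0:ℂ) 1 \ shiftSet f) = 0

theorem t_MEB (h : S_AB) (hF : S_FSIG) : S_MEB := by
  have : Nonempty (ball (0:ℂ) 1) := ⟨⟨0, by simp⟩⟩
  obtain ⟨u, hu⟩ := TopologicalSpace.exists_dense_seq (ball (0:ℂ) 1)
  set e : ℕ → ℂ := fun n => (u n : ℂ) with he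
  set b : ℕ → ℂ := fun j => e (Nat.unpair j).1 with hb
  set B : Set ℂ := ⋂ n : ℕ, ⋃ j : ℕ, (ball (b (j + n)) (rr (j + n)) ∩ ball 0 1) with hB
  have hBG : IsGδ B := IsGδ.iInter_of_isOpen (fun n => isOpen_iUnion (fun j => isOpen_ball.inter isOpen_ball))
  have hBs : B ⊆ ball 0 1 := by
    intro x hx
    obtain ⟨j, hj⟩ := Set.mem_iUnion.mp (Set.mem_iInter.mp hx 0)
    exact hj.2
  have heB : Set.range e ⊆ B := by
    rintro _ ⟨l, rfl⟩
    rw [hB, Set.mem_iInter]
    intro n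
    rw [Set.mem_iUnion]
    refine ⟨Nat.pair l n - n, ?_, (u l).2⟩
    have h1 : n ≤ Nat.pair l n := Nat.right_le_pair _ _
    have h2 : Nat.pair l n - n + n = Nat.pair l n := Nat.sub_add_cancel h1
    rw [h2, hb]
    simp only [Nat.unpair_pair]
    exact mem_ball_self (rr_pos _)
  obtain ⟨f, hf, h1, h2⟩ := h (Set.range e) B (Set.countable_range e) heB hBs hBG
  have hdim : dimH (ball (0:ℂ) 1 \ shiftSet f) = 0 := by
    apply dim0 b
    intro n x hx
    obtain ⟨j, hj⟩ := Set.mem_iUnion.mp (Set.mem_iInter.mp (h2 hx) n)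
    exact Set.mem_iUnion.mpr ⟨j, hj.1⟩
  refine ⟨f, hf, ?_, hdim⟩
  have hG : IsGδ ((ball (0:ℂ) 1 \ shiftSet f) ∪ (closedBall 0 1)ᶜ) :=
    (hF f hf).union isClosed_closedBall.isOpen_compl.isGδ
  have hsub : ball (0:ℂ) 1 ⊆ closure (ball (0:ℂ) 1 \ shiftSet f) := by
    intro x hx
    have h3 : (⟨x, hx⟩ : ball (0:ℂ) 1) ∈ closure (Set.range u) := hu _
    have h4 : x ∈ closure (Set.range e) := by
      have h5 := closure_subtype.mp h3
      have h6 : ((↑) : ball (0:ℂ) 1 → ℂ) '' Set.range u = Set.range e := by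
        rw [← Set.range_comp]; rfl
      rwa [h6] at h5
    exact closure_mono h1 h4
  have hD : Dense ((ball (0:ℂ) 1 \ shiftSet f) ∪ (closedBall 0 1)ᶜ) := by
    intro x
    by_cases hx : x ∈ closedBall (0:ℂ) 1
    · have h3 : x ∈ closure (ball (0:ℂ) 1) := by
        rw [closure_ball _ one_ne_zero]; exact hx
      have h4 : closure (ball (0:ℂ) 1) ⊆ closure (ball (0:ℂ) 1 \ shiftSet f) := closure_minimal hsub isClosed_closure
      exact closure_mono Set.subset_union_left (h4 h3)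
    · exact subset_closure (Or.inr hx)
  have hres := residual_of_dense_Gδ hG hD
  refine Filter.mem_of_superset hres ?_
  rintro x (hx | hx) hxs
  · exact hx.2 hxs
  · exact hx (ball_subset_closedBall hxs.1)

/-- consequences of dimension zero -/
lemma conseq {f : ℂ → ℂ} (h : dimH (ball (0:ℂ) 1 \ shiftSet f) = 0) :
    volume (ball (0:ℂ) 1 \ shiftSet f) = 0 ∧ ball (0:ℂ) 1 ⊆ closure (shiftSet f) ∧ ¬ (shiftSet f).Countable ∧
      0 < volume (shiftSet f) := by
  have h0 : μH[((2:ℝ≥0):ℝ)] (ball (0:ℂ) 1 \ shiftSet f) = 0 :=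
    hausdorffMeasure_of_dimH_lt (by rw [h]; norm_num)
  have hfr : ((Module.finrank ℝ ℂ : ℕ) : ℝ) = ((2:ℝ≥0):ℝ) := by rw [Complex.finrank_real_complex]; norm_num
  have h1 : (volume : Measure ℂ) ≪ μH[(Module.finrank ℝ ℂ : ℕ)] := Measure.absolutelyContinuous_isAddHaarMeasure _ _
  have hv : volume (ball (0:ℂ) 1 \ shiftSet f) = 0 := by
    apply h1
    rw [hfr]; exact h0
  have hball : 0 < volume (ball (0:ℂ) 1) := isOpen_ball.measure_pos _ ⟨0, by simp⟩
  have hpos : 0 < volume (shiftSet f) := by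
    rw [pos_iff_ne_zero]
    intro h2
    have h3 : ball (0:ℂ) 1 ⊆ (ball (0:ℂ) 1 \ shiftSet f) ∪ shiftSet f := by
      intro x hx
      by_cases hxs : x ∈ shiftSet f
      · exact Or.inr hxs
      · exact Or.inl ⟨hx, hxs⟩
    have h4 := (measure_mono h3).trans (measure_union_le (μ := (volume : Measure ℂ)) _ _)
    rw [hv, h2, add_zero] at h4
    exact absurd hball (not_lt.mpr h4)
  refine ⟨hv, ?_, fun hc => hpos.ne' (hc.measure_zero _), hpos⟩
  intro x hx
  by_contra hxc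
  have hopen : IsOpen (ball (0:ℂ) 1 ∩ (closure (shiftSet f))ᶜ) := isOpen_ball.inter isClosed_closure.isOpen_compl
  have h5 : 0 < volume (ball (0:ℂ) 1 ∩ (closure (shiftSet f))ᶜ) := hopen.measure_pos _ ⟨x, hx, hxc⟩
  have h6 : ball (0:ℂ) 1 ∩ (closure (shiftSet f))ᶜ ⊆ ball (0:ℂ) 1 \ shiftSet f := by
    rintro y ⟨h7, h8⟩
    exact ⟨h7, fun h9 => h8 (subset_closure h9)⟩
  exact absurd (measure_mono_null h6 hv) h5.ne'

end Pool.Agent.Y186.MS
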