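import Pool.Agent.Y186.MS.Seq

/-! # Summation of the blocks (project MS of helper186) -/

open Complex Metric Set Filter Topology
open scoped ComplexConjugate
open Pool.Agent.Results.MP_4c43cc_an.ShiftSet

namespace Pool.Agent.Y186.MS

lemma cf_congr {F G : ℂ → ℂ} (hG : DifferentiableOn ℂ G (ball 0 1)) (h : ∀ z ∈ ball (0:ℂ) 1, F z = G z) {w : ℂ}
    (hw : ‖w‖ < 1) (m : ℕ) : cf F w m = cf G w m := by
  unfold cf
  apply coeff_unique (C := fun m => taylorCoeff (fun z => G (mob w z)) m)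
  intro z hz
  have h1 := taylorCoeff_hasSum (comp_diff hG hw) hz
  rw [h _ (mob_maps hw hz)]
  exact h1

lemma cf_sum {G : ℕ → ℂ → ℂ} (hG : ∀ j, DifferentiableOn ℂ (G j) (ball 0 1)) {w : ℂ} (hw : ‖w‖ < 1) (m N : ℕ) :
    cf (fun z => ∑ i ∈ Finset.range N, G i z) w m = ∑ i ∈ Finset.range N, cf (G i) w m := by
  induction N with
  | zero => simp [cf_zero]
  | succ N ih =>
    simp only [Finset.sum_range_succ]
    rw [cf_add (F := fun z => ∑ i ∈ Finset.range N, G i z) ?_ (hG N) hw, ih]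
    exact DifferentiableOn.fun_sum (fun i _ => hG i)

lemma cf_cauchy {F : ℂ → ℂ} (hF : DifferentiableOn ℂ F (ball 0 1)) {w : ℂ} (hw : ‖w‖ < 1) {C : ℝ}
    (h : ∀ z : ℂ, ‖z‖ = 1 / 2 → ‖F (mob w z)‖ ≤ C) (m : ℕ) : ‖cf F w m‖ ≤ C * 2 ^ m := by
  have h1 : DiffContOnCl ℂ (fun z => F (mob w z)) (ball 0 (1 / 2)) := by
    apply DifferentiableOn.diffContOnCl
    rw [closure_ball _ (by norm_num)]
    exact (comp_diff hF hw).mono (closedBall_subset_ball (by norm_num))
  have h2 := Complex.norm_iteratedDeriv_le_of_forall_mem_sphere_norm_le (n := m) (c := (0:ℂ)) (R := 1 / 2) (C := C)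
    (by norm_num) h1 (fun z hz => h z (by simpa using hz))
  unfold cf taylorCoeff
  rw [norm_div, Complex.norm_natCast, div_le_iff₀ (by exact_mod_cast m.factorial_pos)]
  refine h2.trans (le_of_eq ?_)
  rw [one_div, inv_pow]
  field_simp

lemma ev_le {ρ : ℝ} (hρ : ρ < 1) : ∀ᶠ j : ℕ in atTop, ρ ≤ 1 - 1 / ((j : ℝ) + 2) := by
  obtain ⟨n, hn⟩ := exists_nat_gt (1 / (1 - ρ))
  have h0 : 0 < 1 - ρ := by linarith
  filter_upwards [eventually_ge_atTop n] with j hj
  have h1 : (n:ℝ) ≤ j := by exact_mod_cast hj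
  have h2 : 1 / (1 - ρ) < (j:ℝ) + 2 := by linarith
  have h3 : 1 / ((j:ℝ) + 2) ≤ 1 - ρ := by
    rw [div_le_iff₀ (by positivity)]
    rw [div_lt_iff₀ h0] at h2
    nlinarith
  linarith

lemma sm {G : ℕ → ℂ → ℂ} (hbd : ∀ (j : ℕ) (z : ℂ), ‖z‖ ≤ 1 - 1 / ((j : ℝ) + 2) → ‖G j z‖ ≤ (1 / 2) ^ j) {z : ℂ}
    (hz : ‖z‖ < 1) : Summable (fun j => G j z) := by
  refine Summable.of_norm_bounded_eventually_nat (g := fun j : ℕ => ((1:ℝ) / 2) ^ j) summable_geometric_two ?_
  filter_upwards [ev_le hz] with j hj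
  exact hbd j z hj

lemma tail_diff {G : ℕ → ℂ → ℂ} (hG : ∀ j, DifferentiableOn ℂ (G j) (ball 0 1))
    (hbd : ∀ (j : ℕ) (z : ℂ), ‖z‖ ≤ 1 - 1 / ((j : ℝ) + 2) → ‖G j z‖ ≤ (1 / 2) ^ j) (N : ℕ) :
    DifferentiableOn ℂ (fun z => ∑' j, G (j + N) z) (ball 0 1) := by
  intro z hz
  obtain ⟨ρ, h1, h2⟩ := exists_between (mem_ball_zero_iff.mp hz)
  obtain ⟨J, hJ⟩ := (ev_le h2).exists_forall_of_atTop
  have hsub : ball (0:ℂ) ρ ⊆ ball 0 1 := ball_subset_ball h2.le
  have hd1 : DifferentiableOn ℂ (fun z => ∑' j, G (j + J + N) z) (ball 0 ρ) := by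
    refine differentiableOn_tsum_of_summable_norm (u := fun j : ℕ => ((1:ℝ) / 2) ^ j) summable_geometric_two
      (fun j => (hG _).mono hsub) isOpen_ball (fun j w hw => ?_)
    have hw' := mem_ball_zero_iff.mp hw
    refine (hbd (j + J + N) w (hw'.le.trans (hJ _ (by omega)))).trans ?_
    exact pow_le_pow_of_le_one (by norm_num) (by norm_num) (by omega)
  have hd2 : DifferentiableOn ℂ (fun z => ∑ i ∈ Finset.range J, G (i + N) z) (ball 0 ρ) :=
    DifferentiableOn.fun_sum (fun i _ => (hG _).mono hsub)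
  have hd : DifferentiableOn ℂ (fun z => ∑' j, G (j + N) z) (ball 0 ρ) := by
    refine (hd2.add hd1).congr (fun w hw => ?_)
    have hw' := (mem_ball_zero_iff.mp hw).trans h2
    have hs := (summable_nat_add_iff N).mpr (sm hbd hw')
    exact (hs.sum_add_tsum_nat_add J).symm
  exact ((hd z (by simpa using h1)).differentiableAt (isOpen_ball.mem_nhds (by simpa using h1))).differentiableWithinAt

lemma lim {G : ℕ → ℂ → ℂ} (hG : ∀ j, DifferentiableOn ℂ (G j) (ball 0 1))
    (hbd : ∀ (j : ℕ) (z : ℂ), ‖z‖ ≤ 1 - 1 / ((j : ℝ) + 2) → ‖G j z‖ ≤ (1 / 2) ^ j) {w : ℂ} (hw : ‖w‖ < 1) (m : ℕ) :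
    Tendsto (fun N => ∑ i ∈ Finset.range N, cf (G i) w m) atTop (𝓝 (cf (fun z => ∑' j, G j z) w m)) := by
  obtain ⟨q, hq0, hq1, hq⟩ := mob_unif hw (show (1:ℝ) / 2 < 1 by norm_num)
  obtain ⟨J, hJ⟩ := (ev_le hq1).exists_forall_of_atTop
  have hdec : ∀ N, cf (fun z => ∑' j, G j z) w m = ∑ i ∈ Finset.range N, cf (G i) w m
      + cf (fun z => ∑' j, G (j + N) z) w m := by
    intro N
    rw [← cf_sum hG hw, ← cf_add (DifferentiableOn.fun_sum (fun i _ => hG i)) (tail_diff hG hbd N) hw]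
    refine cf_congr ((DifferentiableOn.fun_sum (fun i _ => hG i)).add (tail_diff hG hbd N)) (fun z hz => ?_) hw m
    exact ((sm hbd (mem_ball_zero_iff.mp hz)).sum_add_tsum_nat_add N).symm
  have hb : ∀ N, J ≤ N → ‖cf (fun z => ∑' j, G (j + N) z) w m‖ ≤ (2 * (1 / 2) ^ N) * 2 ^ m := by
    intro N hN
    refine cf_cauchy (tail_diff hG hbd N) hw (fun z hz => ?_) m
    have h1 : ∀ j, ‖G (j + N) (mob w z)‖ ≤ (1 / 2) ^ j * (1 / 2) ^ N := fun j => by
      rw [← pow_add]
      exact hbd _ _ ((hq z hz.le).trans (hJ _ (by omega)))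
    have h2 : HasSum (fun j : ℕ => ((1:ℝ) / 2) ^ j * (1 / 2) ^ N) (2 * (1 / 2) ^ N) := hasSum_geometric_two.mul_right _
    exact tsum_of_norm_bounded h2 h1
  have h0 : Tendsto (fun N => cf (fun z => ∑' j, G (j + N) z) w m) atTop (𝓝 0) := by
    have h3 : Tendsto (fun N : ℕ => (2 * ((1:ℝ) / 2) ^ N) * 2 ^ m) atTop (𝓝 0) := by
      have := ((tendsto_pow_atTop_nhds_zero_of_lt_one (r := (1:ℝ) / 2) (by norm_num) (by norm_num)).const_mul 2).mul_const
        (2 ^ m)
      simpa using this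
    refine squeeze_zero_norm' ?_ h3
    filter_upwards [eventually_ge_atTop J] with N hN
    exact hb N hN
  have h4 : (fun N => ∑ i ∈ Finset.range N, cf (G i) w m)
      = fun N => cf (fun z => ∑' j, G j z) w m - cf (fun z => ∑' j, G (j + N) z) w m := by
    ext N; rw [hdec N]; ring
  rw [h4]
  simpa using h0.const_sub (cf (fun z => ∑' j, G j z) w m)

lemma geo_le (j N : ℕ) : ∑ i ∈ Finset.Ico (j + 1) N, ((1:ℝ) / 2) ^ i ≤ 1 := by
  by_cases h : j + 1 ≤ N
  · have h1 : ∑ i ∈ Finset.range N, ((1:ℝ) / 2) ^ i ≤ 2 := by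
      have := summable_geometric_two.sum_le_tsum (Finset.range N) (fun i _ => by positivity)
      rw [tsum_geometric_two] at this
      exact this
    have h2 : ∑ i ∈ Finset.Ico (j + 1) N, ((1:ℝ) / 2) ^ i + 1 ≤ ∑ i ∈ Finset.range N, ((1:ℝ) / 2) ^ i := by
      have h3 : insert 0 (Finset.Ico (j + 1) N) ⊆ Finset.range N := by
        intro i hi
        rcases Finset.mem_insert.mp hi with rfl | hi
        · exact Finset.mem_range.mpr (by omega)
        · exact Finset.mem_range.mpr (Finset.mem_Ico.mp hi).2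
      have h4 := Finset.sum_le_sum_of_subset_of_nonneg (f := fun i : ℕ => ((1:ℝ) / 2) ^ i) h3 (fun i _ _ => by positivity)
      rw [Finset.sum_insert (by simp)] at h4
      simpa [add_comm] using h4
    linarith
  · rw [Finset.Ico_eq_empty (by omega)]; simp

theorem t_ASM : S_ASM := by
  intro b r T a M δ hb hD
  set G : ℕ → ℂ → ℂ := fun j => blk (T j) (a j) (b j) with hGdef
  have hG : ∀ j, DifferentiableOn ℂ (G j) (ball 0 1) := fun j => blk_diff _ _ (hb j)
  have hbd : ∀ (j : ℕ) (z : ℂ), ‖z‖ ≤ 1 - 1 / ((j : ℝ) + 2) → ‖G j z‖ ≤ (1 / 2) ^ j := hD.bd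
  refine ⟨fun z => ∑' j, G j z, tail_diff hG hbd 0, ?_, ?_⟩
  · intro w hw hev
    have hw1 := mem_ball_zero_iff.mp hw
    refine ⟨hw, ?_⟩
    set D : ℕ → ℝ := fun i => ∑' m, ‖cf (G i) w m‖ with hDdef
    have hrow : ∀ i, Summable (fun m => ‖cf (G i) w m‖) := fun i => hD.summ i w hw1
    have hDs : Summable D := by
      refine Summable.of_norm_bounded_eventually_nat (g := fun j : ℕ => ((1:ℝ) / 2) ^ j) summable_geometric_two ?_
      filter_upwards [hev, ev_le hw1] with j h1 h2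
      rw [Real.norm_eq_abs, abs_of_nonneg (tsum_nonneg (fun _ => norm_nonneg _))]
      refine (hrow j).tsum_le_of_sum_le (fun S => hD.off j w h2 ?_ S)
      rw [mem_ball, dist_eq_norm, not_lt] at h1
      exact h1
    have hD0 : ∀ i, 0 ≤ D i := fun i => tsum_nonneg (fun _ => norm_nonneg _)
    change Summable (fun m => ‖cf (fun z => ∑' j, G j z) w m‖)
    refine summable_of_sum_le (c := ∑' i, D i) (fun _ => norm_nonneg _) (fun S => ?_)
    have ht : Tendsto (fun N => ∑ m ∈ S, ‖∑ i ∈ Finset.range N, cf (G i) w m‖) atTop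
        (𝓝 (∑ m ∈ S, ‖cf (fun z => ∑' j, G j z) w m‖)) :=
      tendsto_finsetSum _ (fun m _ => (lim hG hbd hw1 m).norm)
    refine le_of_tendsto' ht (fun N => ?_)
    calc ∑ m ∈ S, ‖∑ i ∈ Finset.range N, cf (G i) w m‖ ≤ ∑ m ∈ S, ∑ i ∈ Finset.range N, ‖cf (G i) w m‖ :=
          Finset.sum_le_sum (fun m _ => norm_sum_le _ _)
      _ = ∑ i ∈ Finset.range N, ∑ m ∈ S, ‖cf (G i) w m‖ := Finset.sum_comm
      _ ≤ ∑ i ∈ Finset.range N, D i := Finset.sum_le_sum (fun i _ => (hrow i).sum_le_tsum _ (fun _ _ => norm_nonneg _))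
      _ ≤ _ := hDs.sum_le_tsum _ (fun i _ => hD0 i)
  · intro w hw hfr hmem
    have hw1 := mem_ball_zero_iff.mp hw
    have hsum : Summable (fun m => ‖cf (fun z => ∑' j, G j z) w m‖) := hmem.2
    set u : ℕ → ℝ := fun m => ‖cf (fun z => ∑' j, G j z) w m‖ with hu
    have hu0 : ∀ m, 0 ≤ u m := fun m => norm_nonneg _
    have hclaim : ∀ j : ℕ, (∀ i, j ≤ i → ‖w‖ ≤ 1 - 1 / ((i : ℝ) + 2)) → w ∈ ball (b j) (δ j) →
        1 / 4 ≤ ∑ m ∈ Finset.Ico (M j) (M (j + 1)), u m := by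
      intro j hj hwj
      rw [mem_ball, dist_eq_norm] at hwj
      obtain ⟨S, hS⟩ := hD.inn j w hw1 hwj
      change 1 / 2 ≤ ∑ m ∈ S, ‖cf (G j) w m‖ at hS
      have hlow : ∀ i, j ≤ i → ∑ m ∈ Finset.range (M i), ‖cf (G i) w m‖ ≤ (1 / 2) ^ i / 16 := fun i hi =>
        hD.low i w (hj i hi)
      have htail : ∀ i, j ≤ i → ∀ S : Finset ℕ, (∀ m ∈ S, M i ≤ m) →
          ∑ m ∈ S, ‖∑ l ∈ Finset.range i, cf (G l) w m‖ ≤ 1 / 16 := by
        intro i hi S hS
        have := hD.tail i w (hj i hi) S hS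
        change ∑ m ∈ S, ‖cf (fun z => ∑ l ∈ Finset.range i, G l z) w m‖ ≤ 1 / 16 at this
        simp only [cf_sum hG hw1] at this
        exact this
      set I := Finset.Ico (M j) (M (j + 1)) with hI
      set S' := S.filter (fun m => M j ≤ m) with hS'
      set S2 := S'.filter (fun m => M (j + 1) ≤ m) with hS2
      have hj16 : ((1:ℝ) / 2) ^ j / 16 ≤ 1 / 16 := by
        have : ((1:ℝ) / 2) ^ j ≤ 1 := pow_le_one₀ (by norm_num) (by norm_num)
        linarith
      have ha : ∑ m ∈ S, ‖cf (G j) w m‖ ≤ 1 / 16 + ∑ m ∈ S', ‖cf (G j) w m‖ := by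
        rw [← Finset.sum_filter_add_sum_filter_not S (fun m => M j ≤ m), add_comm]
        gcongr
        refine (Finset.sum_le_sum_of_subset_of_nonneg ?_ (fun _ _ _ => norm_nonneg _)).trans
          ((hlow j le_rfl).trans hj16)
        intro m hm
        have := (Finset.mem_filter.mp hm).2
        exact Finset.mem_range.mpr (by omega)
      have hb1 : ∑ m ∈ S', ‖cf (G j) w m‖ ≤ ∑ m ∈ S', ‖∑ l ∈ Finset.range (j + 1), cf (G l) w m‖ + 1 / 16 := by
        have h1 : ∀ m, ‖cf (G j) w m‖ ≤ ‖∑ l ∈ Finset.range (j + 1), cf (G l) w m‖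
            + ‖∑ l ∈ Finset.range j, cf (G l) w m‖ := fun m => by
          have : cf (G j) w m = ∑ l ∈ Finset.range (j + 1), cf (G l) w m - ∑ l ∈ Finset.range j, cf (G l) w m := by
            rw [Finset.sum_range_succ]; ring
          rw [this]
          exact norm_sub_le _ _
        refine (Finset.sum_le_sum (fun m _ => h1 m)).trans ?_
        rw [Finset.sum_add_distrib]
        gcongr
        exact htail j le_rfl S' (fun m hm => (Finset.mem_filter.mp hm).2)
      have hc1 : ∑ m ∈ S', ‖∑ l ∈ Finset.range (j + 1), cf (G l) w m‖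
          ≤ 1 / 16 + ∑ m ∈ I, ‖∑ l ∈ Finset.range (j + 1), cf (G l) w m‖ := by
        rw [← Finset.sum_filter_add_sum_filter_not S' (fun m => M (j + 1) ≤ m)]
        gcongr ?_ + ?_
        · exact htail (j + 1) (by omega) _ (fun m hm => (Finset.mem_filter.mp hm).2)
        · refine Finset.sum_le_sum_of_subset_of_nonneg ?_ (fun _ _ _ => norm_nonneg _)
          intro m hm
          have h1 := (Finset.mem_filter.mp hm).2
          have h2 := (Finset.mem_filter.mp (Finset.mem_filter.mp hm).1).2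
          exact Finset.mem_Ico.mpr ⟨h2, by omega⟩
      have hmain : 5 / 16 ≤ ∑ m ∈ I, ‖∑ l ∈ Finset.range (j + 1), cf (G l) w m‖ := by linarith
      have ht : Tendsto (fun N => ∑ m ∈ I, ‖∑ i ∈ Finset.range N, cf (G i) w m‖) atTop (𝓝 (∑ m ∈ I, u m)) :=
        tendsto_finsetSum _ (fun m _ => (lim hG hbd hw1 m).norm)
      refine ge_of_tendsto ht ?_
      filter_upwards [eventually_ge_atTop (j + 1)] with N hN
      have h1 : ∀ m, ‖∑ l ∈ Finset.range (j + 1), cf (G l) w m‖ ≤ ‖∑ i ∈ Finset.range N, cf (G i) w m‖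
          + ∑ i ∈ Finset.Ico (j + 1) N, ‖cf (G i) w m‖ := fun m => by
        have : ∑ l ∈ Finset.range (j + 1), cf (G l) w m = ∑ i ∈ Finset.range N, cf (G i) w m
            - ∑ i ∈ Finset.Ico (j + 1) N, cf (G i) w m := by
          rw [← Finset.sum_range_add_sum_Ico _ hN]; ring
        rw [this]
        refine (norm_sub_le _ _).trans ?_
        gcongr
        exact norm_sum_le _ _
      have h2 : ∑ m ∈ I, ∑ i ∈ Finset.Ico (j + 1) N, ‖cf (G i) w m‖ ≤ 1 / 16 := by
        rw [Finset.sum_comm]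
        calc ∑ i ∈ Finset.Ico (j + 1) N, ∑ m ∈ I, ‖cf (G i) w m‖
            ≤ ∑ i ∈ Finset.Ico (j + 1) N, ((1:ℝ) / 2) ^ i / 16 := by
              refine Finset.sum_le_sum (fun i hi => ?_)
              have hi' := (Finset.mem_Ico.mp hi).1
              refine (Finset.sum_le_sum_of_subset_of_nonneg ?_ (fun _ _ _ => norm_nonneg _)).trans
                (hlow i (by omega))
              intro m hm
              have h3 := (Finset.mem_Ico.mp hm).2
              have h4 := hD.mono hi'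
              exact Finset.mem_range.mpr (by omega)
          _ = (∑ i ∈ Finset.Ico (j + 1) N, ((1:ℝ) / 2) ^ i) / 16 := by rw [Finset.sum_div]
          _ ≤ 1 / 16 := by
              have := geo_le j N
              linarith
      have h3 := Finset.sum_le_sum (s := I) (fun m _ => h1 m)
      rw [Finset.sum_add_distrib] at h3
      linarith
    -- the monotone bounded sequence of partial sums
    set Q : ℕ → ℝ := fun j => ∑ m ∈ Finset.range (M j), u m with hQ
    have hQm : Monotone Q := fun i j hij =>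
      Finset.sum_le_sum_of_subset_of_nonneg (Finset.range_mono (hD.mono hij)) (fun m _ _ => hu0 m)
    have hQb : BddAbove (Set.range Q) := ⟨∑' m, u m, by
      rintro _ ⟨j, rfl⟩
      exact hsum.sum_le_tsum _ (fun m _ => hu0 m)⟩
    have hQt := tendsto_atTop_ciSup hQm hQb
    have hdiff : Tendsto (fun j => Q (j + 1) - Q j) atTop (𝓝 0) := by
      have := (hQt.comp (tendsto_add_atTop_nat 1)).sub hQt
      simpa using this
    have hsmall : ∀ᶠ j in atTop, Q (j + 1) - Q j < 1 / 4 := hdiff.eventually_lt_const (by norm_num)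
    have hev2 : ∀ᶠ j : ℕ in atTop, ∀ i, j ≤ i → ‖w‖ ≤ 1 - 1 / ((i : ℝ) + 2) := by
      obtain ⟨J, hJ⟩ := (ev_le hw1).exists_forall_of_atTop
      filter_upwards [eventually_ge_atTop J] with j hj i hi
      exact hJ i (by omega)
    obtain ⟨j, h1, h2, h3⟩ := (hfr.and_eventually (hsmall.and hev2)).exists
    have h4 := hclaim j h3 h1
    have h5 : Q (j + 1) - Q j = ∑ m ∈ Finset.Ico (M j) (M (j + 1)), u m := by
      rw [hQ]
      simp only
      rw [← Finset.sum_range_add_sum_Ico _ (hD.mono (Nat.le_succ j))]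
      simp
    linarith

end Pool.Agent.Y186.MS
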