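import Pool.Agent.Y186.MS.SeqU

/-! # Thin compact exceptional sets (project MS of helper186) -/

open Complex Metric Set Filter Topology
open scoped ComplexConjugate
open Pool.Agent.Results.MP_4c43cc_an.ShiftSet

namespace Pool.Agent.Y186.MS

/-- compact sets which are covered infinitely often by tiny discs are exceptional -/
def S_CPT : Prop := ∃ τ : ℕ → ℝ, (∀ j, 0 < τ j) ∧ ∀ K : Set ℂ, IsCompact K → K ⊆ ball (0:ℂ) 1 →
  (∃ x : ℕ → ℂ, ∀ w ∈ K, ∃ᶠ j in atTop, w ∈ ball (x j) (τ j)) →
  ∃ f : ℂ → ℂ, DifferentiableOn ℂ f (ball 0 1) ∧ shiftSet f = ball (0:ℂ) 1 \ K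

theorem t_CPT (h : S_MASTERU) : S_CPT := by
  have hR : ∀ j : ℕ, 1 - 1 / ((j : ℝ) + 2) < 1 := fun j => by
    have : 0 < 1 / ((j : ℝ) + 2) := by positivity
    linarith
  obtain ⟨δ, hδ0, hδr, hmain⟩ := h (fun j => 1 - 1 / ((j : ℝ) + 2)) (fun j => 1 / ((j : ℝ) + 1)) hR
    (fun j => by positivity)
  refine ⟨fun j => δ j / 2, fun j => by have := hδ0 j; positivity, ?_⟩
  rintro K hK hKs ⟨x, hx⟩
  by_cases hne : K.Nonempty
  · obtain ⟨k0, hk0⟩ := hne
    obtain ⟨km, hkm, hmax⟩ := hK.exists_isMaxOn ⟨k0, hk0⟩ (f := fun z : ℂ => ‖z‖) (by fun_prop)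
    have hkm1 : ‖km‖ < 1 := mem_ball_zero_iff.mp (hKs hkm)
    obtain ⟨J, hJ⟩ := (ev_le hkm1).exists_forall_of_atTop
    classical
    set b : ℕ → ℂ := fun j => if j < J then 0 else
      if hh : (ball (x j) (δ j / 2) ∩ K).Nonempty then hh.choose else k0 with hb
    have hbK : ∀ j, J ≤ j → b j ∈ K := by
      intro j hj
      simp only [hb, not_lt.mpr hj, if_false]
      split_ifs with hh
      · exact hh.choose_spec.2
      · exact hk0
    have hbR : ∀ j, ‖b j‖ ≤ 1 - 1 / ((j : ℝ) + 2) := by
      intro j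
      by_cases hj : j < J
      · simp only [hb, hj, if_true, norm_zero]
        have : 1 / ((j : ℝ) + 2) ≤ 1 := by
          rw [div_le_one (by positivity)]
          have : (0:ℝ) ≤ j := by positivity
          linarith
        linarith
      · have hj' := not_lt.mp hj
        exact (hmax (hbK j hj')).trans (hJ j hj')
    obtain ⟨f, hf, h1, h2⟩ := hmain b hbR
    refine ⟨f, hf, ?_⟩
    ext w
    constructor
    · intro hw
      refine ⟨hw.1, fun hwK => h2 w hw.1 ?_ hw⟩
      refine ((hx w hwK).and_eventually (eventually_ge_atTop J)).mono ?_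
      rintro j ⟨h3, h4⟩
      have hh : (ball (x j) (δ j / 2) ∩ K).Nonempty := ⟨w, h3, hwK⟩
      have hbj : b j ∈ ball (x j) (δ j / 2) := by
        simp only [hb, not_lt.mpr h4, if_false, hh, dif_pos]
        exact hh.choose_spec.1
      rw [mem_ball] at h3 hbj ⊢
      have := dist_triangle_right w (b j) (x j)
      linarith
    · rintro ⟨hw, hwK⟩
      refine h1 w hw ?_
      obtain ⟨ε, hε, hεK⟩ := Metric.isOpen_iff.mp hK.isClosed.isOpen_compl w hwK
      obtain ⟨n, hn⟩ := exists_nat_gt (1 / ε)
      filter_upwards [eventually_ge_atTop J, eventually_ge_atTop n] with j h3 h4 h5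
      have h6 : b j ∈ ball w ε := by
        rw [mem_ball] at h5 ⊢
        rw [dist_comm]
        refine h5.trans ?_
        have h7 : (n:ℝ) ≤ j := by exact_mod_cast h4
        rw [div_lt_iff₀ hε] at hn
        rw [div_lt_iff₀ (by positivity)]
        nlinarith
      exact hεK h6 (hbK j h3)
  · have hK0 : K = ∅ := Set.not_nonempty_iff_eq_empty.mp hne
    subst hK0
    refine ⟨fun _ => 0, differentiableOn_const _, ?_⟩
    ext w
    simp only [Set.sdiff_empty]
    constructor
    · intro hw; exact hw.1
    · intro hw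
      refine ⟨hw, ?_⟩
      have : (fun n => ‖taylorCoeff (fun z => (fun _ : ℂ => (0:ℂ)) (mob w z)) n‖) = fun _ => 0 := by
        ext n
        have := cf_zero w n
        unfold cf at this
        rw [this, norm_zero]
      rw [this]
      exact summable_zero

/-! ### thin Cantor sets -/

lemma exists_min (τ : ℕ → ℝ) (h : ∀ j, 0 < τ j) (n : ℕ) : ∃ m : ℝ, 0 < m ∧ ∀ j < n, m ≤ τ j := by
  induction n with
  | zero => exact ⟨1, one_pos, fun j hj => absurd hj (Nat.not_lt_zero j)⟩
  | succ n ih =>
    obtain ⟨m, h1, h2⟩ := ih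
    refine ⟨min m (τ n), lt_min h1 (h n), fun j hj => ?_⟩
    rcases Nat.lt_succ_iff_lt_or_eq.mp hj with hj | rfl
    · exact (min_le_left _ _).trans (h2 j hj)
    · exact min_le_right _ _

/-- uncountable compact sets which are covered infinitely often by tiny discs -/
def S_UNC : Prop := ∀ τ : ℕ → ℝ, (∀ j, 0 < τ j) → ∃ K : Set ℂ, IsCompact K ∧ K ⊆ ball (0:ℂ) 1 ∧ ¬ K.Countable ∧
  ∃ x : ℕ → ℂ, ∀ w ∈ K, ∃ᶠ j in atTop, w ∈ ball (x j) (τ j)

/-- finite words -/
abbrev Wd : Type := Σ k : ℕ, (Fin k → Bool)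

theorem t_UNC : S_UNC := by
  intro τ hτ
  have hN : ∀ k : ℕ, ∃ N : ℕ, ∀ v : Fin k → Bool, Encodable.encode (⟨k, v⟩ : Wd) < N := by
    intro k
    obtain ⟨N, hN⟩ := (Set.finite_range (fun v : Fin k → Bool => Encodable.encode (⟨k, v⟩ : Wd))).bddAbove
    exact ⟨N + 1, fun v => Nat.lt_succ_of_le (hN ⟨v, rfl⟩)⟩
  choose N hN using hN
  choose m hm0 hm using fun k => exists_min τ hτ (N k)
  let t : ℕ → ℝ := fun k => Nat.rec (min (1 / 4) (m 0 / 2)) (fun k s => min (s / 4) (m (k + 1) / 2)) k
  have ht0 : t 0 = min (1 / 4) (m 0 / 2) := rfl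
  have hts : ∀ k, t (k + 1) = min (t k / 4) (m (k + 1) / 2) := fun k => rfl
  have htp : ∀ k, 0 < t k := by
    intro k
    induction k with
    | zero => rw [ht0]; have := hm0 0; positivity
    | succ k ih => rw [hts]; have := hm0 (k + 1); positivity
  have htm : ∀ k, t k ≤ m k / 2 := by
    intro k
    cases k with
    | zero => rw [ht0]; exact min_le_right _ _
    | succ k => rw [hts]; exact min_le_right _ _
  have htq : ∀ k i, t (k + i) ≤ t k * (1 / 4) ^ i := by
    intro k i
    induction i with
    | zero => simp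
    | succ i ih =>
      rw [← add_assoc, hts, pow_succ]
      refine (min_le_left _ _).trans ?_
      linarith
  have ht4 : ∀ k, t k ≤ 1 / 4 * (1 / 4) ^ k := by
    intro k
    have h1 := htq 0 k
    rw [zero_add] at h1
    have h2 : t 0 ≤ 1 / 4 := by rw [ht0]; exact min_le_left _ _
    exact h1.trans (by gcongr)
  -- the digits
  let d : (ℕ → Bool) → ℕ → ℂ := fun e k => if e k then Complex.ofReal (t k) else 0
  have hd : ∀ e k, ‖d e k‖ ≤ t k := by
    intro e k
    simp only [d]
    split_ifs
    · rw [Complex.norm_real, Real.norm_eq_abs, abs_of_pos (htp k)]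
    · rw [norm_zero]; exact (htp k).le
  have hgeo : Summable (fun k : ℕ => (1:ℝ) / 4 * (1 / 4) ^ k) :=
    (summable_geometric_of_lt_one (by norm_num) (by norm_num)).mul_left _
  have hgs : ∑' k : ℕ, (1:ℝ) / 4 * (1 / 4) ^ k = 1 / 3 := by
    rw [tsum_mul_left, tsum_geometric_of_lt_one (by norm_num) (by norm_num)]; norm_num
  have hds : ∀ e, Summable (d e) := fun e =>
    Summable.of_norm_bounded hgeo (fun k => (hd e k).trans (ht4 k))
  let φ : (ℕ → Bool) → ℂ := fun e => ∑' k, d e k
  -- tails
  have htail : ∀ e k, ‖∑' i, d e (i + k)‖ ≤ 4 / 3 * t k := by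
    intro e k
    have h1 : HasSum (fun i : ℕ => t k * (1 / 4) ^ i) (t k * (1 - 1 / 4)⁻¹) :=
      (hasSum_geometric_of_lt_one (by norm_num) (by norm_num)).mul_left _
    refine (tsum_of_norm_bounded h1 (fun i => ?_)).trans (le_of_eq (by norm_num; ring))
    refine (hd e _).trans ?_
    rw [add_comm]
    exact htq k i
  have hsplit : ∀ e k, φ e = ∑ i ∈ Finset.range k, d e i + ∑' i, d e (i + k) := fun e k =>
    ((hds e).sum_add_tsum_nat_add k).symm
  have hcont : Continuous φ := by
    refine continuous_tsum (u := fun k => 1 / 4 * (1 / 4) ^ k) (fun k => ?_) hgeo (fun k e => (hd e k).trans (ht4 k))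
    have hg : Continuous (fun c : Bool => if c then Complex.ofReal (t k) else 0) := continuous_of_discreteTopology
    exact hg.comp (continuous_apply k)
  have hinj : Function.Injective φ := by
    intro e e' hee
    by_contra hne
    have hex : ∃ k, e k ≠ e' k := by
      by_contra hall
      push Not at hall
      exact hne (funext hall)
    classical
    set k := Nat.find hex with hk
    have hk1 : e k ≠ e' k := Nat.find_spec hex
    have hk2 : ∀ i < k, e i = e' i := fun i hi => by
      have := Nat.find_min hex hi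
      push Not at this
      exact this
    have h1 := hsplit e (k + 1)
    have h2 := hsplit e' (k + 1)
    have h3 : ∑ i ∈ Finset.range k, d e i = ∑ i ∈ Finset.range k, d e' i :=
      Finset.sum_congr rfl (fun i hi => by simp only [d, hk2 i (Finset.mem_range.mp hi)])
    rw [Finset.sum_range_succ] at h1 h2
    have h4 : d e k - d e' k = ∑' i, d e' (i + (k + 1)) - ∑' i, d e (i + (k + 1)) := by
      rw [h3] at h1
      have : φ e = φ e' := hee
      rw [h1, h2] at this
      linear_combination this
    have h5 : ‖d e k - d e' k‖ = t k := by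
      have hn : ‖Complex.ofReal (t k)‖ = t k := by
        rw [Complex.norm_real, Real.norm_eq_abs, abs_of_pos (htp k)]
      show ‖(if e k then Complex.ofReal (t k) else 0) - (if e' k then Complex.ofReal (t k) else 0)‖ = t k
      by_cases h5 : e k = true
      · have h6 : ¬ e' k = true := fun h => hk1 (h5.trans h.symm)
        rw [if_pos h5, if_neg h6, sub_zero, hn]
      · have h6 : e' k = true := by
          by_contra h7
          exact hk1 ((Bool.not_eq_true _ ▸ h5 : e k = false).trans (Bool.not_eq_true _ ▸ h7 : e' k = false).symm)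
        rw [if_neg h5, if_pos h6, zero_sub, norm_neg, hn]
    have h6 : ‖d e k - d e' k‖ ≤ 4 / 3 * t (k + 1) + 4 / 3 * t (k + 1) := by
      rw [h4]
      exact (norm_sub_le _ _).trans (add_le_add (htail _ _) (htail _ _))
    have h7 : t (k + 1) ≤ t k / 4 := by rw [hts]; exact min_le_left _ _
    have := htp k
    linarith
  refine ⟨Set.range φ, isCompact_range hcont, ?_, ?_, ?_⟩
  · rintro _ ⟨e, rfl⟩
    rw [mem_ball_zero_iff]
    have h1 := htail e 0
    simp only [add_zero] at h1
    have h2 := ht4 0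
    have h3 : ‖φ e‖ ≤ 4 / 3 * t 0 := h1
    norm_num at h2
    linarith
  · intro hc
    have h1 : Countable (ℕ → Bool) := by
      have h2 : Countable (Set.range φ) := hc
      exact (Set.rangeFactorization_injective.mpr hinj).countable
    have h3 : Function.Injective (fun (s : Set ℕ) => (fun n => @decide (n ∈ s) (Classical.propDecidable _) : ℕ → Bool)) := by
      intro s s' hss
      ext n
      have := congrFun hss n
      simpa using this
    have h4 : Countable (Set ℕ) := h3.countable
    obtain ⟨g, hg⟩ := exists_injective_nat (Set ℕ)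
    exact Function.cantor_injective g hg
  · let s : Wd → ℂ := fun u => ∑ i : Fin u.1, if u.2 i then Complex.ofReal (t i) else 0
    refine ⟨fun j => match (Encodable.decode j : Option Wd) with | some u => s u | none => 0, ?_⟩
    rintro _ ⟨e, rfl⟩
    have hcode : ∀ k : ℕ, φ e ∈ ball (s ⟨k, fun i => e i⟩) (τ (Encodable.encode (⟨k, fun i => e i⟩ : Wd))) := by
      intro k
      have h1 : s ⟨k, fun i => e i⟩ = ∑ i ∈ Finset.range k, d e i := by
        simp only [s, d]
        rw [Finset.sum_range]
      rw [mem_ball, dist_eq_norm, h1, hsplit e k, add_sub_cancel_left]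
      refine (htail e k).trans_lt ?_
      have h2 := htm k
      have h3 := hm k _ (hN k (fun i => e i))
      have := htp k
      linarith
    rw [Nat.frequently_atTop_iff_infinite]
    have hinjc : Function.Injective (fun k : ℕ => Encodable.encode (⟨k, fun i => e i⟩ : Wd)) := by
      intro k k' hkk
      have := Encodable.encode_injective hkk
      exact congrArg Sigma.fst this
    refine (Set.infinite_range_of_injective hinjc).mono ?_
    rintro _ ⟨k, rfl⟩
    simp only [Set.mem_ofPred_eq, Encodable.encodek]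
    exact hcode k

/-- an uncountable compact exceptional set -/
theorem unc_of (h : S_CPT) : ∃ K : Set ℂ, IsCompact K ∧ K ⊆ ball (0:ℂ) 1 ∧ ¬ K.Countable ∧
    ∃ f : ℂ → ℂ, DifferentiableOn ℂ f (ball 0 1) ∧ shiftSet f = ball (0:ℂ) 1 \ K := by
  obtain ⟨τ, hτ, h1⟩ := h
  obtain ⟨K, h2, h3, h4, h5⟩ := t_UNC τ hτ
  exact ⟨K, h2, h3, h4, h1 K h2 h3 h5⟩

end Pool.Agent.Y186.MS
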