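import Pool.Agent.Y186.MS.Stm

/-! # Countable exceptional sets (project MS of helper186) -/

open Complex Metric Set Filter Topology
open scoped ComplexConjugate
open Pool.Agent.Results.MP_4c43cc_an.ShiftSet

namespace Pool.Agent.Y186.MS

lemma coeff_zero (w : ℂ) (m : ℕ) : taylorCoeff (fun z => (fun _ : ℂ => (0:ℂ)) (mob w z)) m = 0 := by
  apply coeff_unique (C := fun _ => 0)
  intro z _
  simp only [zero_mul]
  exact hasSum_zero

theorem t_CTB (h : S_MASTER) : S_CTB := by
  intro E hE hc hG
  by_cases hne : E.Nonempty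
  · obtain ⟨e, he⟩ := hc.exists_eq_range hne
    obtain ⟨U, hUo, hU⟩ := isGδ_iff_eq_iInter_nat.mp hG
    set V : ℕ → Set ℂ := fun k => ⋂ i ∈ Finset.range (k + 1), U i with hV
    have hVo : ∀ k, IsOpen (V k) := fun k => isOpen_biInter_finset (fun i _ => hUo i)
    have hEV : ∀ k, E ⊆ V k := by
      intro k x hx
      rw [hV]
      simp only [Set.mem_iInter]
      intro i _
      have := hU ▸ hx
      exact Set.mem_iInter.mp this i
    have heE : ∀ l, e l ∈ E := fun l => by rw [he]; exact ⟨l, rfl⟩
    have hr : ∀ j : ℕ, ∃ r : ℝ, 0 < r ∧ ball (e (Nat.unpair j).1) r ⊆ V j := fun j =>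
      Metric.isOpen_iff.mp (hVo j) _ (hEV j (heE _))
    choose r hr0 hrV using hr
    obtain ⟨f, δ, hδ0, hδr, hf, h1, h2⟩ := h (fun j => e (Nat.unpair j).1) r
      (fun j => mem_ball_zero_iff.mp (hE (heE _))) hr0
    refine ⟨f, hf, ?_⟩
    ext w
    constructor
    · intro hw
      refine ⟨hw.1, fun hwE => ?_⟩
      rw [he] at hwE
      obtain ⟨l, hl⟩ := hwE
      refine h2 w hw.1 ?_ hw
      rw [Filter.frequently_atTop]
      intro a
      refine ⟨Nat.pair l a, Nat.right_le_pair _ _, ?_⟩
      simp only [Nat.unpair_pair]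
      rw [hl]
      exact mem_ball_self (hδ0 _)
    · rintro ⟨hw, hwE⟩
      refine h1 w hw ?_
      rw [hU, Set.mem_iInter, not_forall] at hwE
      obtain ⟨k, hk⟩ := hwE
      filter_upwards [eventually_ge_atTop k] with j hj hwj
      have h3 := hrV j hwj
      rw [hV] at h3
      simp only [Set.mem_iInter] at h3
      exact hk (h3 k (Finset.mem_range.mpr (by omega)))
  · have hE0 : E = ∅ := Set.not_nonempty_iff_eq_empty.mp hne
    subst hE0
    refine ⟨fun _ => 0, differentiableOn_const _, ?_⟩
    ext w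
    simp only [Set.sdiff_empty]
    constructor
    · intro hw; exact hw.1
    · intro hw
      refine ⟨hw, ?_⟩
      have : (fun n => ‖taylorCoeff (fun z => (fun _ : ℂ => (0:ℂ)) (mob w z)) n‖) = fun _ => 0 := by
        ext n; rw [coeff_zero w n, norm_zero]
      rw [this]
      exact summable_zero

end Pool.Agent.Y186.MS
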