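import Pool.Agent.Y186.MS.Stm

/-! # The recursive construction (project MS of helper186) -/

open Complex Metric Set Filter Topology
open scoped ComplexConjugate
open Pool.Agent.Results.MP_4c43cc_an.ShiftSet

namespace Pool.Agent.Y186.MS

lemma one_sub_ge {b w : ℂ} (hb : ‖b‖ < 1) (hw : ‖w‖ < 1) : 1 - ‖b‖ ≤ ‖1 - conj b * w‖ := by
  have h1 : ‖conj b * w‖ ≤ ‖b‖ := by
    rw [norm_mul, RCLike.norm_conj]
    exact mul_le_of_le_one_right (norm_nonneg _) hw.le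
  have h2 := norm_sub_norm_le (1:ℂ) (conj b * w)
  rw [norm_one] at h2
  linarith

lemma one_sub_le {b w : ℂ} (hb : ‖b‖ < 1) (hw : ‖w‖ < 1) : ‖1 - conj b * w‖ ≤ 2 := by
  have h1 : ‖conj b * w‖ ≤ 1 := by
    rw [norm_mul, RCLike.norm_conj]
    nlinarith [norm_nonneg b, norm_nonneg w]
  have h2 := norm_sub_le (1:ℂ) (conj b * w)
  rw [norm_one] at h2
  linarith

lemma mob_le {b w : ℂ} (hb : ‖b‖ < 1) (hw : ‖w‖ < 1) : ‖mob b w‖ ≤ ‖w - b‖ / (1 - ‖b‖) := by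
  rw [mob, norm_div]
  have := one_sub_ge hb hw
  have h0 : 0 < 1 - ‖b‖ := by linarith
  exact div_le_div_of_nonneg_left (norm_nonneg _) h0 this

lemma mob_ge {b w : ℂ} (hb : ‖b‖ < 1) (hw : ‖w‖ < 1) : ‖w - b‖ / 2 ≤ ‖mob b w‖ := by
  rw [mob, norm_div]
  have h1 := one_sub_le hb hw
  have h2 := one_sub_ge hb hw
  have h0 : 0 < ‖1 - conj b * w‖ := by linarith
  exact div_le_div_of_nonneg_left (norm_nonneg _) h0 h1

/-- uniform bound of a Moebius map on a smaller closed ball -/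
lemma mob_unif {b : ℂ} (hb : ‖b‖ < 1) {s : ℝ} (hs : s < 1) :
    ∃ q : ℝ, 0 ≤ q ∧ q < 1 ∧ ∀ w : ℂ, ‖w‖ ≤ s → ‖mob b w‖ ≤ q := by
  by_cases h0 : 0 ≤ s
  · have hc : ContinuousOn (fun w => ‖mob b w‖) (closedBall (0:ℂ) s) := by
      intro w hw
      have hw' : ‖w‖ ≤ 1 := (mem_closedBall_zero_iff.mp hw).trans hs.le
      exact (mob_diff hb hw').continuousAt.norm.continuousWithinAt
    obtain ⟨z, hz, hm⟩ := (isCompact_closedBall (0:ℂ) s).exists_isMaxOn ⟨0, by simpa using h0⟩ hc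
    refine ⟨‖mob b z‖, norm_nonneg _, mob_norm_lt hb ((mem_closedBall_zero_iff.mp hz).trans_lt hs), fun w hw => ?_⟩
    exact hm (mem_closedBall_zero_iff.mpr hw)
  · refine ⟨0, le_rfl, one_pos, fun w hw => absurd (norm_nonneg w) (by linarith)⟩

lemma pol_diff (T : Finset ℕ) (a : ℕ → ℂ) : Differentiable ℂ (pol T a) := by
  have : pol T a = fun z => ∑ n ∈ T, a n * z ^ n := rfl
  rw [this]; fun_prop

lemma blk_cf (hMOB : S_MOB) (T : Finset ℕ) (a : ℕ → ℂ) {b w : ℂ} (hb : ‖b‖ < 1) (hw : ‖w‖ < 1) (m : ℕ) :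
    ‖cf (blk T a b) w m‖ = ‖cf (pol T a) (mob b w) m‖ :=
  hMOB (pol T a) (pol_diff T a).differentiableOn b w hb hw m

lemma blk_diff (T : Finset ℕ) (a : ℕ → ℂ) {b : ℂ} (hb : ‖b‖ < 1) : DifferentiableOn ℂ (blk T a b) (ball 0 1) := by
  intro z hz
  have hb' : ‖-b‖ < 1 := by rwa [norm_neg]
  have h1 := mob_diff hb' (mem_ball_zero_iff.mp hz).le
  exact ((pol_diff T a (mob (-b) z)).comp z h1).differentiableWithinAt

lemma pol_le {T : Finset ℕ} {a : ℕ → ℂ} {n0 : ℕ} (hT : ∀ n ∈ T, n0 ≤ n) (hs : ∑ n ∈ T, ‖a n‖ = 1) {z : ℂ} {q : ℝ}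
    (hz : ‖z‖ ≤ q) (hq : q ≤ 1) : ‖pol T a z‖ ≤ q ^ n0 := by
  unfold pol
  refine (norm_sum_le _ _).trans ?_
  have hq0 : 0 ≤ q := (norm_nonneg z).trans hz
  calc ∑ n ∈ T, ‖a n * z ^ n‖ ≤ ∑ n ∈ T, ‖a n‖ * q ^ n0 := by
        refine Finset.sum_le_sum (fun n hn => ?_)
        rw [norm_mul, norm_pow]
        gcongr ?_ * ?_
        exact (pow_le_pow_left₀ (norm_nonneg _) hz n).trans (pow_le_pow_of_le_one hq0 hq (hT n hn))
    _ = q ^ n0 := by rw [← Finset.sum_mul, hs, one_mul]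

/-- functions with uniformly small high coefficients -/
def Good (F : ℂ → ℂ) : Prop := DifferentiableOn ℂ F (ball 0 1) ∧ ∀ r : ℝ, r < 1 → ∀ ε : ℝ, 0 < ε → ∃ M : ℕ,
  ∀ w : ℂ, ‖w‖ ≤ r → ∀ S : Finset ℕ, (∀ m ∈ S, M ≤ m) → ∑ m ∈ S, ‖cf F w m‖ ≤ ε

lemma cf_zero (w : ℂ) (m : ℕ) : cf (fun _ => 0) w m = 0 := by
  unfold cf
  apply coeff_unique (C := fun _ => 0)
  intro z _
  simpa using (hasSum_zero : HasSum (fun _ : ℕ => (0:ℂ)) 0)

lemma mob_maps {w : ℂ} (hw : ‖w‖ < 1) : MapsTo (mob w) (ball 0 1) (ball 0 1) := fun z hz =>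
  mem_ball_zero_iff.mpr (mob_norm_lt hw (mem_ball_zero_iff.mp hz))

lemma comp_diff {F : ℂ → ℂ} (hF : DifferentiableOn ℂ F (ball 0 1)) {w : ℂ} (hw : ‖w‖ < 1) :
    DifferentiableOn ℂ (fun z => F (mob w z)) (ball 0 1) := by
  have h1 : DifferentiableOn ℂ (mob w) (ball 0 1) := (mob_diffContOnCl hw).1
  exact hF.comp h1 (mob_maps hw)

lemma cf_add {F G : ℂ → ℂ} (hF : DifferentiableOn ℂ F (ball 0 1)) (hG : DifferentiableOn ℂ G (ball 0 1)) {w : ℂ}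
    (hw : ‖w‖ < 1) (m : ℕ) : cf (fun z => F z + G z) w m = cf F w m + cf G w m := by
  unfold cf
  apply coeff_unique (C := fun m => taylorCoeff (fun z => F (mob w z)) m + taylorCoeff (fun z => G (mob w z)) m)
  intro z hz
  have h1 := taylorCoeff_hasSum (comp_diff hF hw) hz
  have h2 := taylorCoeff_hasSum (comp_diff hG hw) hz
  have := h1.add h2
  simpa only [add_mul] using this

lemma good_zero : Good (fun _ => 0) := by
  refine ⟨by fun_prop, fun r _ ε hε => ⟨0, fun w _ S _ => ?_⟩⟩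
  simp only [cf_zero, norm_zero, Finset.sum_const_zero]
  exact hε.le

lemma Good.add {F G : ℂ → ℂ} (hF : Good F) (hG : Good G) : Good (fun z => F z + G z) := by
  refine ⟨hF.1.add hG.1, fun r hr ε hε => ?_⟩
  obtain ⟨M1, h1⟩ := hF.2 r hr (ε / 2) (by positivity)
  obtain ⟨M2, h2⟩ := hG.2 r hr (ε / 2) (by positivity)
  refine ⟨max M1 M2, fun w hw S hS => ?_⟩
  have hw1 : ‖w‖ < 1 := hw.trans_lt hr
  have e1 := h1 w hw S (fun m hm => (le_max_left _ _).trans (hS m hm))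
  have e2 := h2 w hw S (fun m hm => (le_max_right _ _).trans (hS m hm))
  calc ∑ m ∈ S, ‖cf (fun z => F z + G z) w m‖ ≤ ∑ m ∈ S, (‖cf F w m‖ + ‖cf G w m‖) := by
        refine Finset.sum_le_sum (fun m _ => ?_)
        rw [cf_add hF.1 hG.1 hw1]
        exact norm_add_le _ _
    _ = ∑ m ∈ S, ‖cf F w m‖ + ∑ m ∈ S, ‖cf G w m‖ := Finset.sum_add_distrib
    _ ≤ ε := by linarith

lemma good_blk (hMOB : S_MOB) (hTAIL : S_TAIL) (T : Finset ℕ) (a : ℕ → ℂ) {b : ℂ} (hb : ‖b‖ < 1) :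
    Good (blk T a b) := by
  refine ⟨blk_diff T a hb, fun r hr ε hε => ?_⟩
  obtain ⟨q, _, hq1, hq⟩ := mob_unif hb hr
  obtain ⟨M, hM⟩ := hTAIL T a q hq1 ε hε
  refine ⟨M, fun w hw S hS => ?_⟩
  have hw1 : ‖w‖ < 1 := hw.trans_lt hr
  simp only [blk_cf hMOB T a hb hw1]
  exact hM (mob b w) (hq w hw) S hS

/-- the properties of one block -/
def Blk1 (b : ℂ) (r : ℝ) (j M : ℕ) (T : Finset ℕ) (a : ℕ → ℂ) (δ : ℝ) : Prop :=
  0 < δ ∧ δ ≤ r ∧ (∀ z : ℂ, ‖z‖ ≤ 1 - 1 / ((j : ℝ) + 2) → ‖blk T a b z‖ ≤ (1 / 2) ^ j) ∧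
  (∀ w : ℂ, ‖w‖ ≤ 1 - 1 / ((j : ℝ) + 2) → r ≤ ‖w - b‖ → ∀ S : Finset ℕ,
    ∑ m ∈ S, ‖cf (blk T a b) w m‖ ≤ (1 / 2) ^ j) ∧
  (∀ w : ℂ, ‖w‖ ≤ 1 - 1 / ((j : ℝ) + 2) → ∑ m ∈ Finset.range M, ‖cf (blk T a b) w m‖ ≤ (1 / 2) ^ j / 16) ∧
  (∀ w : ℂ, ‖w‖ < 1 → ‖w - b‖ < δ → ∃ S : Finset ℕ, 1 / 2 ≤ ∑ m ∈ S, ‖cf (blk T a b) w m‖) ∧
  (∀ w : ℂ, ‖w‖ < 1 → Summable (fun m => ‖cf (blk T a b) w m‖))

lemma step (hLOC : S_LOC) (hMOB : S_MOB) (hLOW : S_LOW) (hINN : S_INN) {b : ℂ} (hb : ‖b‖ < 1) {r : ℝ} (hr : 0 < r)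
    (j M : ℕ) : ∃ T a δ, Blk1 b r j M T a δ := by
  have hs : 1 - 1 / ((j : ℝ) + 2) < 1 := by
    have : 0 < 1 / ((j : ℝ) + 2) := by positivity
    linarith
  have hb' : ‖-b‖ < 1 := by rwa [norm_neg]
  obtain ⟨q, hq0, hq1, hq⟩ := mob_unif hb hs
  obtain ⟨p, hp0, hp1, hp⟩ := mob_unif hb' hs
  obtain ⟨n1, hn1⟩ := hLOW q hq1 M ((1 / 2) ^ j / 16) (by positivity)
  obtain ⟨n2, hn2⟩ := exists_pow_lt_of_lt_one (show (0:ℝ) < (1 / 2) ^ j by positivity) hp1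
  obtain ⟨T, a, hT, hsum, hloc⟩ := hLOC ((1 / 2) ^ j) (r / 2) (1 - q) (by positivity) (by positivity) (by linarith)
    (max n1 n2)
  obtain ⟨d, hd0, hd1, hd⟩ := hINN T a hsum
  have hbb : 0 < 1 - ‖b‖ := by linarith
  refine ⟨T, a, min r (d * (1 - ‖b‖)), by positivity, min_le_left _ _, ?_, ?_, ?_, ?_, ?_⟩
  · intro z hz
    have h1 := pol_le (fun n hn => (le_max_right n1 n2).trans (hT n hn)) hsum (hp z hz) hp1.le
    exact h1.trans hn2.le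
  · intro w hw hwb S
    have hw1 : ‖w‖ < 1 := hw.trans_lt hs
    simp only [blk_cf hMOB T a hb hw1]
    refine hloc (mob b w) ?_ ?_ S
    · exact le_trans (by linarith) (mob_ge hb hw1)
    · have := hq w hw; linarith
  · intro w hw
    have hw1 : ‖w‖ < 1 := hw.trans_lt hs
    simp only [blk_cf hMOB T a hb hw1]
    exact hn1 T a (fun n hn => (le_max_left n1 n2).trans (hT n hn)) hsum (mob b w) (hq w hw)
  · intro w hw hwb
    refine ⟨T, ?_⟩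
    simp only [blk_cf hMOB T a hb hw]
    refine hd (mob b w) ?_
    refine (mob_le hb hw).trans_lt ?_
    rw [div_lt_iff₀ hbb]
    exact hwb.trans_le (min_le_right _ _)
  · intro w hw
    simp only [blk_cf hMOB T a hb hw]
    exact fin_bound T a (mob_norm_lt hb hw)

theorem t_SEQ (hLOC : S_LOC) (hMOB : S_MOB) (hLOW : S_LOW) (hTAIL : S_TAIL) (hINN : S_INN) : S_SEQ := by
  intro b r hb hr
  choose T a δ hstep using fun (j M : ℕ) => step hLOC hMOB hLOW hINN (hb j) (hr j) j M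
  have hs : ∀ j : ℕ, 1 - 1 / ((j : ℝ) + 2) < 1 := fun j => by
    have : 0 < 1 / ((j : ℝ) + 2) := by positivity
    linarith
  choose Mt hMt using fun (j : ℕ) (F : {F : ℂ → ℂ // Good F}) => F.2.2 (1 - 1 / ((j : ℝ) + 2)) (hs j) (1 / 16) (by norm_num)
  -- the state: the sum of the previous blocks and the previous frequency
  let Mn : ℕ → {F : ℂ → ℂ // Good F} × ℕ → ℕ := fun j s => max s.2 (Mt j s.1)
  let nx : ℕ → {F : ℂ → ℂ // Good F} × ℕ → {F : ℂ → ℂ // Good F} × ℕ := fun j s =>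
    (⟨fun z => s.1.1 z + blk (T j (Mn j s)) (a j (Mn j s)) (b j) z,
      s.1.2.add (good_blk hMOB hTAIL _ _ (hb j))⟩, Mn j s)
  let st : ℕ → {F : ℂ → ℂ // Good F} × ℕ := fun j => Nat.rec (⟨fun _ => 0, good_zero⟩, 0) (fun j s => nx j s) j
  have hst : ∀ j, st (j + 1) = nx j (st j) := fun j => rfl
  let M : ℕ → ℕ := fun j => Mn j (st j)
  have hF : ∀ j, (st j).1.1 = fun z => ∑ i ∈ Finset.range j, blk (T i (M i)) (a i (M i)) (b i) z := by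
    intro j
    induction j with
    | zero => ext z; simp [st]
    | succ j ih =>
      ext z
      rw [hst, Finset.sum_range_succ]
      have := congrFun ih z
      simp only [nx, M] at this ⊢
      rw [this]
  refine ⟨fun j => T j (M j), fun j => a j (M j), M, fun j => δ j (M j), ?_⟩
  refine ⟨?_, fun j => (hstep j (M j)).1, fun j => (hstep j (M j)).2.1, fun j => (hstep j (M j)).2.2.1,
    fun j => (hstep j (M j)).2.2.2.1, fun j => (hstep j (M j)).2.2.2.2.1, ?_, fun j => (hstep j (M j)).2.2.2.2.2.1,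
    fun j => (hstep j (M j)).2.2.2.2.2.2⟩
  · refine monotone_nat_of_le_succ (fun j => ?_)
    have : (st (j + 1)).2 = M j := by rw [hst]
    rw [← this]
    exact le_max_left _ _
  · intro j w hw S hS
    rw [← hF j]
    exact hMt j (st j).1 w hw S (fun m hm => (le_max_right _ _).trans (hS m hm))

theorem t_MASTER (h1 : S_SEQ) (h2 : S_ASM) : S_MASTER := by
  intro b r hb hr
  obtain ⟨T, a, M, δ, hD⟩ := h1 b r hb hr
  obtain ⟨f, hf, h3, h4⟩ := h2 b r T a M δ hb hD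
  exact ⟨f, δ, hD.pos, hD.le, hf, h3, h4⟩

end Pool.Agent.Y186.MS
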