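import Pool.Agent.Y186.MS.Asm

/-! # The recursive construction, uniformly in the centres (project MS of helper186) -/

open Complex Metric Set Filter Topology
open scoped ComplexConjugate
open Pool.Agent.Results.MP_4c43cc_an.ShiftSet

namespace Pool.Agent.Y186.MS

/-- the recursive construction, uniformly in the centres -/
def S_SEQU : Prop := ∀ (R r : ℕ → ℝ), (∀ j, R j < 1) → (∀ j, 0 < r j) →
  ∃ T a M δ, (∀ j, 0 < δ j) ∧ (∀ j, δ j ≤ r j) ∧ ∀ b : ℕ → ℂ, (∀ j, ‖b j‖ ≤ R j) → Dat b r T a M δ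

/-- main construction, uniformly in the centres -/
def S_MASTERU : Prop := ∀ (R r : ℕ → ℝ), (∀ j, R j < 1) → (∀ j, 0 < r j) →
  ∃ δ : ℕ → ℝ, (∀ j, 0 < δ j) ∧ (∀ j, δ j ≤ r j) ∧ ∀ b : ℕ → ℂ, (∀ j, ‖b j‖ ≤ R j) →
  ∃ f : ℂ → ℂ, DifferentiableOn ℂ f (ball 0 1) ∧
    (∀ w ∈ ball (0:ℂ) 1, (∀ᶠ j in atTop, w ∉ ball (b j) (r j)) → w ∈ shiftSet f) ∧
    (∀ w ∈ ball (0:ℂ) 1, (∃ᶠ j in atTop, w ∈ ball (b j) (δ j)) → w ∉ shiftSet f)

/-- uniform bound of Moebius maps -/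
lemma mob_unif2 {R s : ℝ} (hR : R < 1) (hs : s < 1) :
    ∃ q : ℝ, 0 ≤ q ∧ q < 1 ∧ ∀ b w : ℂ, ‖b‖ ≤ R → ‖w‖ ≤ s → ‖mob b w‖ ≤ q := by
  by_cases h0 : 0 ≤ R ∧ 0 ≤ s
  · have hc : ContinuousOn (fun p : ℂ × ℂ => ‖mob p.1 p.2‖) (closedBall (0:ℂ) R ×ˢ closedBall (0:ℂ) s) := by
      unfold mob
      refine ContinuousOn.norm (ContinuousOn.div (by fun_prop) (by fun_prop) ?_)
      rintro ⟨b, w⟩ ⟨hb, hw⟩
      exact mob_den ((mem_closedBall_zero_iff.mp hb).trans_lt hR) ((mem_closedBall_zero_iff.mp hw).trans hs.le)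
    obtain ⟨⟨b0, w0⟩, hz, hm⟩ := ((isCompact_closedBall (0:ℂ) R).prod (isCompact_closedBall (0:ℂ) s)).exists_isMaxOn
      ⟨(0, 0), by simpa using h0⟩ hc
    refine ⟨‖mob b0 w0‖, norm_nonneg _, mob_norm_lt ((mem_closedBall_zero_iff.mp hz.1).trans_lt hR)
      ((mem_closedBall_zero_iff.mp hz.2).trans_lt hs), fun b w hb hw => ?_⟩
    exact hm (show (b, w) ∈ closedBall (0:ℂ) R ×ˢ closedBall (0:ℂ) s from
      ⟨mem_closedBall_zero_iff.mpr hb, mem_closedBall_zero_iff.mpr hw⟩)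
  · refine ⟨0, le_rfl, one_pos, fun b w hb hw => absurd ⟨(norm_nonneg b).trans hb, (norm_nonneg w).trans hw⟩ h0⟩

/-- families of functions with uniformly small high coefficients -/
def GoodU (𝓕 : Set (ℂ → ℂ)) : Prop := (∀ F ∈ 𝓕, DifferentiableOn ℂ F (ball 0 1)) ∧
  ∀ r : ℝ, r < 1 → ∀ ε : ℝ, 0 < ε → ∃ M : ℕ, ∀ F ∈ 𝓕, ∀ w : ℂ, ‖w‖ ≤ r → ∀ S : Finset ℕ, (∀ m ∈ S, M ≤ m) →
    ∑ m ∈ S, ‖cf F w m‖ ≤ ε

lemma goodU_zero : GoodU {fun _ => 0} := by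
  refine ⟨?_, fun r _ ε hε => ⟨0, ?_⟩⟩
  · rintro F rfl; fun_prop
  · rintro F rfl w _ S _
    simp only [cf_zero, norm_zero, Finset.sum_const_zero]
    exact hε.le

/-- sums of members of two families -/
def addF (𝓕 𝓖 : Set (ℂ → ℂ)) : Set (ℂ → ℂ) := {H | ∃ F ∈ 𝓕, ∃ G ∈ 𝓖, H = fun z => F z + G z}

lemma GoodU.add {𝓕 𝓖 : Set (ℂ → ℂ)} (hF : GoodU 𝓕) (hG : GoodU 𝓖) : GoodU (addF 𝓕 𝓖) := by
  refine ⟨?_, fun r hr ε hε => ?_⟩
  · rintro _ ⟨F, h1, G, h2, rfl⟩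
    exact (hF.1 F h1).add (hG.1 G h2)
  · obtain ⟨M1, h1⟩ := hF.2 r hr (ε / 2) (by positivity)
    obtain ⟨M2, h2⟩ := hG.2 r hr (ε / 2) (by positivity)
    refine ⟨max M1 M2, ?_⟩
    rintro _ ⟨F, hF1, G, hG1, rfl⟩ w hw S hS
    have hw1 : ‖w‖ < 1 := hw.trans_lt hr
    have e1 := h1 F hF1 w hw S (fun m hm => (le_max_left _ _).trans (hS m hm))
    have e2 := h2 G hG1 w hw S (fun m hm => (le_max_right _ _).trans (hS m hm))
    calc ∑ m ∈ S, ‖cf (fun z => F z + G z) w m‖ ≤ ∑ m ∈ S, (‖cf F w m‖ + ‖cf G w m‖) := by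
          refine Finset.sum_le_sum (fun m _ => ?_)
          rw [cf_add (hF.1 F hF1) (hG.1 G hG1) hw1]
          exact norm_add_le _ _
      _ = ∑ m ∈ S, ‖cf F w m‖ + ∑ m ∈ S, ‖cf G w m‖ := Finset.sum_add_distrib
      _ ≤ ε := by linarith

/-- the family of the blocks with given polynomial -/
def blkF (T : Finset ℕ) (a : ℕ → ℂ) (R : ℝ) : Set (ℂ → ℂ) := {H | ∃ b : ℂ, ‖b‖ ≤ R ∧ H = blk T a b}

lemma goodU_blk (hMOB : S_MOB) (hTAIL : S_TAIL) (T : Finset ℕ) (a : ℕ → ℂ) {R : ℝ} (hR : R < 1) :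
    GoodU (blkF T a R) := by
  refine ⟨?_, fun r hr ε hε => ?_⟩
  · rintro _ ⟨b, hb, rfl⟩
    exact blk_diff T a (hb.trans_lt hR)
  · obtain ⟨q, _, hq1, hq⟩ := mob_unif2 hR hr
    obtain ⟨M, hM⟩ := hTAIL T a q hq1 ε hε
    refine ⟨M, ?_⟩
    rintro _ ⟨b, hb, rfl⟩ w hw S hS
    have hw1 : ‖w‖ < 1 := hw.trans_lt hr
    simp only [blk_cf hMOB T a (hb.trans_lt hR) hw1]
    exact hM (mob b w) (hq b w hb hw) S hS

lemma stepU (hLOC : S_LOC) (hMOB : S_MOB) (hLOW : S_LOW) (hINN : S_INN) {R : ℝ} (hR : R < 1) {r : ℝ} (hr : 0 < r)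
    (j M : ℕ) : ∃ T a δ, (0 < δ ∧ δ ≤ r) ∧ ∀ b : ℂ, ‖b‖ ≤ R → Blk1 b r j M T a δ := by
  have hs : 1 - 1 / ((j : ℝ) + 2) < 1 := by
    have : 0 < 1 / ((j : ℝ) + 2) := by positivity
    linarith
  obtain ⟨q, hq0, hq1, hq⟩ := mob_unif2 hR hs
  obtain ⟨n1, hn1⟩ := hLOW q hq1 M ((1 / 2) ^ j / 16) (by positivity)
  obtain ⟨n2, hn2⟩ := exists_pow_lt_of_lt_one (show (0:ℝ) < (1 / 2) ^ j by positivity) hq1
  obtain ⟨T, a, hT, hsum, hloc⟩ := hLOC ((1 / 2) ^ j) (r / 2) (1 - q) (by positivity) (by positivity) (by linarith)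
    (max n1 n2)
  obtain ⟨d, hd0, hd1, hd⟩ := hINN T a hsum
  have hRR : 0 < 1 - R := by linarith
  refine ⟨T, a, min r (d * (1 - R)), ⟨by positivity, min_le_left _ _⟩, fun b hbR => ?_⟩
  have hb : ‖b‖ < 1 := hbR.trans_lt hR
  have hbR' : ‖-b‖ ≤ R := by rwa [norm_neg]
  refine ⟨by positivity, min_le_left _ _, ?_, ?_, ?_, ?_, ?_⟩
  · intro z hz
    have h1 := pol_le (fun n hn => (le_max_right n1 n2).trans (hT n hn)) hsum (hq (-b) z hbR' hz) hq1.le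
    exact h1.trans hn2.le
  · intro w hw hwb S
    have hw1 : ‖w‖ < 1 := hw.trans_lt hs
    simp only [blk_cf hMOB T a hb hw1]
    refine hloc (mob b w) ?_ ?_ S
    · exact le_trans (by linarith) (mob_ge hb hw1)
    · have := hq b w hbR hw; linarith
  · intro w hw
    have hw1 : ‖w‖ < 1 := hw.trans_lt hs
    simp only [blk_cf hMOB T a hb hw1]
    exact hn1 T a (fun n hn => (le_max_left n1 n2).trans (hT n hn)) hsum (mob b w) (hq b w hbR hw)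
  · intro w hw hwb
    refine ⟨T, ?_⟩
    simp only [blk_cf hMOB T a hb hw]
    refine hd (mob b w) ?_
    refine (mob_le hb hw).trans_lt ?_
    rw [div_lt_iff₀ (by linarith)]
    refine hwb.trans_le ((min_le_right _ _).trans ?_)
    gcongr
  · intro w hw
    simp only [blk_cf hMOB T a hb hw]
    exact fin_bound T a (mob_norm_lt hb hw)

theorem t_SEQU (hLOC : S_LOC) (hMOB : S_MOB) (hLOW : S_LOW) (hTAIL : S_TAIL) (hINN : S_INN) : S_SEQU := by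
  intro R r hR hr
  choose T a δ hδ hstep using fun (j M : ℕ) => stepU hLOC hMOB hLOW hINN (hR j) (hr j) j M
  have hs : ∀ j : ℕ, 1 - 1 / ((j : ℝ) + 2) < 1 := fun j => by
    have : 0 < 1 / ((j : ℝ) + 2) := by positivity
    linarith
  choose Mt hMt using fun (j : ℕ) (F : {F : Set (ℂ → ℂ) // GoodU F}) =>
    F.2.2 (1 - 1 / ((j : ℝ) + 2)) (hs j) (1 / 16) (by norm_num)
  let Mn : ℕ → {F : Set (ℂ → ℂ) // GoodU F} × ℕ → ℕ := fun j s => max s.2 (Mt j s.1)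
  let nx : ℕ → {F : Set (ℂ → ℂ) // GoodU F} × ℕ → {F : Set (ℂ → ℂ) // GoodU F} × ℕ := fun j s =>
    (⟨addF s.1.1 (blkF (T j (Mn j s)) (a j (Mn j s)) (R j)),
      s.1.2.add (goodU_blk hMOB hTAIL _ _ (hR j))⟩, Mn j s)
  let st : ℕ → {F : Set (ℂ → ℂ) // GoodU F} × ℕ := fun j => Nat.rec (⟨{fun _ => 0}, goodU_zero⟩, 0) (fun j s => nx j s) j
  have hst : ∀ j, st (j + 1) = nx j (st j) := fun j => rfl
  let M : ℕ → ℕ := fun j => Mn j (st j)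
  refine ⟨fun j => T j (M j), fun j => a j (M j), M, fun j => δ j (M j), fun j => (hδ j (M j)).1,
    fun j => (hδ j (M j)).2, ?_⟩
  intro b hb
  have hF : ∀ j, (fun z => ∑ i ∈ Finset.range j, blk (T i (M i)) (a i (M i)) (b i) z) ∈ (st j).1.1 := by
    intro j
    induction j with
    | zero => simp [st]
    | succ j ih =>
      rw [hst]
      refine ⟨_, ih, blk (T j (M j)) (a j (M j)) (b j), ⟨b j, hb j, rfl⟩, ?_⟩
      ext z
      rw [Finset.sum_range_succ]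
  have hB : ∀ j, Blk1 (b j) (r j) j (M j) (T j (M j)) (a j (M j)) (δ j (M j)) := fun j => hstep j (M j) (b j) (hb j)
  refine ⟨?_, fun j => (hB j).1, fun j => (hB j).2.1, fun j => (hB j).2.2.1,
    fun j => (hB j).2.2.2.1, fun j => (hB j).2.2.2.2.1, ?_, fun j => (hB j).2.2.2.2.2.1,
    fun j => (hB j).2.2.2.2.2.2⟩
  · refine monotone_nat_of_le_succ (fun j => ?_)
    have : (st (j + 1)).2 = M j := by rw [hst]
    rw [← this]
    exact le_max_left _ _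
  · intro j w hw S hS
    exact hMt j (st j).1 _ (hF j) w hw S (fun m hm => (le_max_right _ _).trans (hS m hm))

theorem t_MASTERU (h1 : S_SEQU) (h2 : S_ASM) : S_MASTERU := by
  intro R r hR hr
  obtain ⟨T, a, M, δ, hδ0, hδr, hD⟩ := h1 R r hR hr
  refine ⟨δ, hδ0, hδr, fun b hb => ?_⟩
  obtain ⟨f, hf, h3, h4⟩ := h2 b r T a M δ (fun j => (hb j).trans_lt (hR j)) (hD b hb)
  exact ⟨f, hf, h3, h4⟩

theorem master_of_U (h : S_MASTERU) : S_MASTER := by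
  intro b r hb hr
  obtain ⟨δ, h1, h2, h3⟩ := h (fun j => ‖b j‖) r hb hr
  obtain ⟨f, h4, h5, h6⟩ := h3 b (fun j => le_rfl)
  exact ⟨f, δ, h1, h2, h4, h5, h6⟩

end Pool.Agent.Y186.MS
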