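import Pool.Agent.Y186.MS.Asm
import Pool.Agent.H840R2.MoebPS

/-! # Univalent functions with meagre shift sets: the building blocks (helper186) -/

open Complex Metric Set Filter Topology
open scoped ComplexConjugate
open Pool.Agent.Results.MP_4c43cc_an.ShiftSet

namespace Pool.Agent.Y186.MS

/-- the exceptional values of w + 1/w -/
noncomputable def exV : ℕ × ℕ × ℕ × ℕ × ℕ → ℂ := fun q =>
    -((Pool.Agent.H840R2.zt q.1 q.2.1 + Pool.Agent.H840R2.zt q.1 q.2.2.1 - (Pool.Agent.H840R2.zt q.1 q.2.2.2.1 + Pool.Agent.H840R2.zt q.1 q.2.2.2.2)) +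
      (Pool.Agent.H840R2.zt q.1 q.2.1 * Pool.Agent.H840R2.zt q.1 q.2.2.1 * (Pool.Agent.H840R2.zt q.1 q.2.2.2.1 + Pool.Agent.H840R2.zt q.1 q.2.2.2.2) -
      Pool.Agent.H840R2.zt q.1 q.2.2.2.1 * Pool.Agent.H840R2.zt q.1 q.2.2.2.2 * (Pool.Agent.H840R2.zt q.1 q.2.1 + Pool.Agent.H840R2.zt q.1 q.2.2.1))) /
      (Pool.Agent.H840R2.zt q.1 q.2.1 * Pool.Agent.H840R2.zt q.1 q.2.2.1 - Pool.Agent.H840R2.zt q.1 q.2.2.2.1 * Pool.Agent.H840R2.zt q.1 q.2.2.2.2)

lemma good_of {w : ℝ} (hw0 : 0 < w) (hw1 : w < 1) (hv : ((w + 1 / w : ℝ) : ℂ) ∉ Set.range exV) :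
    Pool.Agent.H840R2.Good w := by
  set v : ℝ := w + 1 / w with hvdef
  have hwv : w ^ 2 + 1 = v * w := by
    rw [hvdef]; field_simp
  intro K k l m p hK h
  have n1 := Pool.Agent.H840R2.xi_den_ne hw0 hw1 one_pos le_rfl (Pool.Agent.H840R2.zt_norm hK k)
  have n2 := Pool.Agent.H840R2.xi_den_ne hw0 hw1 one_pos le_rfl (Pool.Agent.H840R2.zt_norm hK l)
  have n3 := Pool.Agent.H840R2.xi_den_ne hw0 hw1 one_pos le_rfl (Pool.Agent.H840R2.zt_norm hK m)
  have n4 := Pool.Agent.H840R2.xi_den_ne hw0 hw1 one_pos le_rfl (Pool.Agent.H840R2.zt_norm hK p)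
  unfold Pool.Agent.H840R2.xi at h
  rw [div_mul_div_comm, div_mul_div_comm, div_eq_div_iff (mul_ne_zero n1 n2) (mul_ne_zero n3 n4)] at h
  have hVq : exV (K, k, l, m, p) ≠ (v : ℂ) := fun h2 => hv ⟨(K, k, l, m, p), h2⟩
  simp only [exV] at hVq
  generalize Pool.Agent.H840R2.zt K k = a at *
  generalize Pool.Agent.H840R2.zt K l = b at *
  generalize Pool.Agent.H840R2.zt K m = c at *
  generalize Pool.Agent.H840R2.zt K p = d at *
  have hwvC : (w:ℂ) ^ 2 + 1 = v * w := by exact_mod_cast hwv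
  have hwC : (w:ℂ) ≠ 0 := by exact_mod_cast hw0.ne'
  have h4 : (1 - (w:ℂ) ^ 2) ≠ 0 := by
    have : (1 - w ^ 2 : ℝ) ≠ 0 := by nlinarith
    exact_mod_cast this
  have e1 : (1 - (w:ℂ) ^ 2) * w * ((a * b - c * d) * v + ((a + b - (c + d)) + (a * b * (c + d) - c * d * (a + b)))) = 0 := by
    push_cast at h
    have e0 : (1 - (w:ℂ) ^ 2) * ((a * b - c * d) * (w ^ 2 + 1) + ((a + b - (c + d)) + (a * b * (c + d) - c * d * (a + b))) * w) = 0 := by
      linear_combination h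
    rw [hwvC] at e0
    linear_combination e0
  have e2 := (mul_eq_zero.mp e1).resolve_left (mul_ne_zero h4 hwC)
  have hc0 : a * b - c * d = 0 := by
    by_contra hne
    apply hVq
    rw [div_eq_iff hne]
    linear_combination -e2
  have hc1 : (a + b - (c + d)) + (a * b * (c + d) - c * d * (a + b)) = 0 := by
    rw [hc0] at e2; simpa using e2
  have habcd : a * b = c * d := sub_eq_zero.mp hc0
  refine ⟨habcd, ?_⟩
  have e3 : (a + b - (c + d)) * (1 - a * b) = 0 := by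
    linear_combination hc1 + (a + b) * (-1 : ℂ) * habcd
  rcases mul_eq_zero.mp e3 with h5 | h5
  · right; exact sub_eq_zero.mp h5
  · left; exact (sub_eq_zero.mp h5).symm

lemma bad_countable : {w : ℝ | 0 < w ∧ w < 1 ∧ ¬ Pool.Agent.H840R2.Good w}.Countable := by
  refine Set.MapsTo.countable_of_injOn (f := fun w : ℝ => ((w + 1 / w : ℝ) : ℂ)) (t := Set.range exV) ?_ ?_
    (Set.countable_range exV)
  · rintro w ⟨h0, h1, h2⟩
    by_contra h3
    exact h2 (good_of h0 h1 h3)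
  · rintro w ⟨h0, h1, _⟩ w' ⟨h0', h1', _⟩ h
    have h3 : w + 1 / w = w' + 1 / w' := Complex.ofReal_injective h
    have h4 : (w - w') * (w * w' - 1) = 0 := by
      field_simp at h3
      linear_combination h3
    rcases mul_eq_zero.mp h4 with h5 | h5
    · linarith
    · nlinarith

/-- the good points are dense -/
lemma good_dense {x : ℂ} (hx : ‖x‖ < 1) {ε : ℝ} (hε : 0 < ε) :
    ∃ w : ℂ, 0 < ‖w‖ ∧ ‖w‖ < 1 ∧ Pool.Agent.H840R2.Good ‖w‖ ∧ dist w x < ε := by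
  have hlt : ‖x‖ < min 1 (‖x‖ + ε) := lt_min hx (by linarith)
  have hU : ¬ (Set.Ioo ‖x‖ (min 1 (‖x‖ + ε))).Countable := by
    intro h
    have := Cardinal.mk_Ioo_real hlt
    have h2 := Cardinal.le_aleph0_iff_set_countable.mpr h
    rw [this] at h2
    exact absurd h2 (not_le.mpr Cardinal.aleph0_lt_continuum)
  obtain ⟨ρ, hρ, hρb⟩ : ∃ ρ ∈ Set.Ioo ‖x‖ (min 1 (‖x‖ + ε)), ρ ∉ {w : ℝ | 0 < w ∧ w < 1 ∧ ¬ Pool.Agent.H840R2.Good w} := by
    by_contra hcon
    push Not at hcon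
    exact hU (bad_countable.mono hcon)
  have hρ0 : 0 < ρ := (norm_nonneg x).trans_lt hρ.1
  have hρ1 : ρ < 1 := hρ.2.trans_le (min_le_left _ _)
  have hρε : ρ < ‖x‖ + ε := hρ.2.trans_le (min_le_right _ _)
  have hgood : Pool.Agent.H840R2.Good ρ := by
    by_contra h
    exact hρb ⟨hρ0, hρ1, h⟩
  by_cases hx0 : x = 0
  · refine ⟨(ρ : ℂ), ?_, ?_, ?_, ?_⟩
    · rw [Complex.norm_real, Real.norm_eq_abs, abs_of_pos hρ0]; exact hρ0
    · rw [Complex.norm_real, Real.norm_eq_abs, abs_of_pos hρ0]; exact hρ1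
    · rw [Complex.norm_real, Real.norm_eq_abs, abs_of_pos hρ0]; exact hgood
    · rw [hx0, dist_zero_right, Complex.norm_real, Real.norm_eq_abs, abs_of_pos hρ0]
      rw [hx0, norm_zero, zero_add] at hρε
      exact hρε
  · have hxn : 0 < ‖x‖ := norm_pos_iff.mpr hx0
    set w : ℂ := ((ρ / ‖x‖ : ℝ) : ℂ) * x with hw
    have hwn : ‖w‖ = ρ := by
      rw [hw, norm_mul, Complex.norm_real, Real.norm_eq_abs, abs_of_pos (by positivity)]
      field_simp
    refine ⟨w, by rw [hwn]; exact hρ0, by rw [hwn]; exact hρ1, by rw [hwn]; exact hgood, ?_⟩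
    have e : w - x = ((ρ / ‖x‖ - 1 : ℝ) : ℂ) * x := by
      rw [hw]; push_cast; ring
    rw [dist_eq_norm, e, norm_mul, Complex.norm_real, Real.norm_eq_abs]
    have h1 : 0 ≤ ρ / ‖x‖ - 1 := by
      rw [sub_nonneg, le_div_iff₀ hxn]; linarith [hρ.1]
    rw [abs_of_nonneg h1, sub_mul, one_mul, div_mul_cancel₀ _ hxn.ne']
    linarith

lemma mob_real' (w : ℝ) (z : ℂ) : mob w z = (z - w) / (1 - w * z) := by
  unfold mob
  rw [Complex.conj_ofReal]

lemma mob_deriv' {w : ℝ} (hw0 : 0 < w) (hw1 : w < 1) {z : ℂ} (hz : ‖z‖ < 1) :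
    HasDerivAt (mob w) ((1 - (w:ℂ) ^ 2) / (1 - w * z) ^ 2) z := by
  have hwz : ‖(w:ℂ) * z‖ < 1 := by
    rw [norm_mul, Complex.norm_real, Real.norm_eq_abs, abs_of_pos hw0]
    nlinarith [norm_nonneg z]
  have hden : 1 - (w:ℂ) * z ≠ 0 := by
    intro h
    rw [← sub_eq_zero.mp h, norm_one] at hwz
    exact lt_irrefl _ hwz
  have h1 : HasDerivAt (fun z : ℂ => z - w) 1 z := (hasDerivAt_id z).sub_const _
  have h2 : HasDerivAt (fun z : ℂ => 1 - (w:ℂ) * z) (-(w:ℂ)) z := by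
    have := ((hasDerivAt_id z).const_mul (w:ℂ)).const_sub 1
    simpa using this
  have h3 := h1.div h2 hden
  have e : mob (w:ℂ) = (fun z : ℂ => z - w) / (fun z : ℂ => 1 - (w:ℂ) * z) := by
    ext z
    rw [mob_real']
    rfl
  have e2 : (1 - (w:ℂ) ^ 2) / (1 - w * z) ^ 2 = (1 * (1 - (w:ℂ) * z) - (z - w) * (-(w:ℂ))) / (1 - (w:ℂ) * z) ^ 2 := by
    congr 1
    ring
  rw [e, e2]
  exact h3

/-- the building block -/
lemma block0 {w : ℝ} (hw0 : 0 < w) (hw1 : w < 1) (hgood : Pool.Agent.H840R2.Good w) (C : ℝ) :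
    ∃ G P : ℂ → ℂ, (∀ z ∈ ball (0:ℂ) 1, HasDerivAt G (P z) z) ∧ (∀ z ∈ ball (0:ℂ) 1, -(1 / 2) ≤ (P z).re) ∧
      (∀ S : Finset ℕ, ∑ n ∈ S, ‖taylorCoeff G n‖ ≤ 1) ∧ ∃ N : ℕ, C < ∑ n ∈ Finset.range N, ‖cf G w n‖ := by
  obtain ⟨K, r, N, hK2, hr0, hr1, hKL, hlow⟩ := Pool.Agent.H840R2.lower hw0 hw1 hgood C
  have hK0 : K ≠ 0 := by omega
  have hKp : (0:ℝ) < K := by exact_mod_cast Nat.pos_of_ne_zero hK0
  have hL := Pool.Agent.H840R2.Lam_pos hr0 hr1
  set s : ℝ := K / Pool.Agent.H840R2.Lam r with hs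
  have hs0 : 0 < s := div_pos hKp hL
  have hs1 : s ≤ 1 := (div_le_one hL).mpr hKL
  set P : ℂ → ℂ := fun z => (s:ℂ) * Pool.Agent.H840R2.Hf r K z with hP
  have hn1 : ∀ n : ℕ, ‖(n:ℂ) + 1‖ = (n:ℝ) + 1 := by
    intro n
    have : ((n:ℂ) + 1) = (((n:ℝ) + 1 : ℝ) : ℂ) := by push_cast; rfl
    rw [this, Complex.norm_real, Real.norm_eq_abs, abs_of_pos (by positivity)]
  have hPsum : ∀ z ∈ ball (0:ℂ) 1, HasSum (fun n => ((s:ℂ) * Pool.Agent.H840R2.af r K n) * z ^ n) (P z) := by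
    intro z hz
    have := (Pool.Agent.H840R2.Hf_hasSum hr0 hr1.le hK0 (mem_ball_zero_iff.mp hz)).mul_left (s : ℂ)
    simp only [← mul_assoc] at this
    exact this
  obtain ⟨G0, hG0⟩ := (Pool.Agent.H840R2.ps_differentiableOn hPsum).isExactOn_ball
  set G : ℂ → ℂ := fun z => G0 z - G0 0 with hGdef
  have hG : ∀ z ∈ ball (0:ℂ) 1, HasDerivAt G (P z) z := fun z hz => (hG0 z hz).sub_const _
  have hGd : DifferentiableOn ℂ G (ball 0 1) := fun z hz => (hG z hz).differentiableAt.differentiableWithinAt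
  have hc0 : taylorCoeff G 0 = 0 := by
    simp [taylorCoeff, hGdef]
  have hc1 : ∀ n, taylorCoeff G (n + 1) = ((s:ℂ) * Pool.Agent.H840R2.af r K n) / ((n:ℂ) + 1) := fun n =>
    Pool.Agent.H840R2.prim_coeff hG hPsum n
  refine ⟨G, P, hG, ?_, ?_, N + 1, ?_⟩
  · intro z hz
    have h3 := Pool.Agent.H840R2.Hf_re hr0 hr1.le hK0 (mem_ball_zero_iff.mp hz)
    simp only [hP]
    rw [Complex.re_ofReal_mul]
    nlinarith
  · intro S
    have hsub : S ⊆ Finset.range (S.sup id + 1 + 1) := by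
      intro n hn
      have : n ≤ S.sup id := Finset.le_sup (f := id) hn
      exact Finset.mem_range.mpr (by omega)
    refine (Finset.sum_le_sum_of_subset_of_nonneg hsub (fun _ _ _ => norm_nonneg _)).trans ?_
    rw [Finset.sum_range_succ', hc0, norm_zero, add_zero]
    have h10 := Pool.Agent.H840R2.af_sum hr0 hr1 hK0 (S.sup id + 1)
    calc ∑ n ∈ Finset.range (S.sup id + 1), ‖taylorCoeff G (n + 1)‖
        = s * ∑ n ∈ Finset.range (S.sup id + 1), ‖Pool.Agent.H840R2.af r K n‖ / ((n:ℝ) + 1) := by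
          rw [Finset.mul_sum]
          refine Finset.sum_congr rfl (fun n _ => ?_)
          rw [hc1, norm_div, hn1, norm_mul, Complex.norm_real, Real.norm_eq_abs, abs_of_pos hs0]
          ring
      _ ≤ s * (Pool.Agent.H840R2.Lam r / K) := mul_le_mul_of_nonneg_left h10 hs0.le
      _ = 1 := by
          rw [hs]
          have := hKp.ne'
          have := hL.ne'
          field_simp
  · have hFd : ∀ z ∈ ball (0:ℂ) 1, HasDerivAt (fun z => G (mob w z)) (P (mob w z) * ((1 - (w:ℂ) ^ 2) / (1 - w * z) ^ 2)) z := by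
      intro z hz
      have hz' := mem_ball_zero_iff.mp hz
      have hwn : ‖(w:ℂ)‖ < 1 := by
        rw [Complex.norm_real, Real.norm_eq_abs, abs_of_pos hw0]; exact hw1
      have h1 := hG (mob w z) (mem_ball_zero_iff.mpr (mob_norm_lt hwn hz'))
      exact h1.comp z (mob_deriv' hw0 hw1 hz')
    have hFs : ∀ z ∈ ball (0:ℂ) 1, HasSum (fun n : ℕ => ((s:ℂ) * Pool.Agent.H840R2.cf w r K n) * z ^ n)
        (P (mob w z) * ((1 - (w:ℂ) ^ 2) / (1 - w * z) ^ 2)) := by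
      intro z hz
      have := (Pool.Agent.H840R2.comp_hasSum hw0 hw1 hr0 hr1.le hK2 (mem_ball_zero_iff.mp hz)).mul_left (s : ℂ)
      simp only [← mul_assoc] at this
      rw [mob_real']
      exact this
    have hcc : ∀ n, cf G w (n + 1) = ((s:ℂ) * Pool.Agent.H840R2.cf w r K n) / ((n:ℂ) + 1) := fun n =>
      Pool.Agent.H840R2.prim_coeff hFd hFs n
    rw [Finset.sum_range_succ']
    refine hlow.trans_le ?_
    simp only [hcc]
    exact le_add_of_nonneg_right (norm_nonneg _)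

end Pool.Agent.Y186.MS
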