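import Pool.Agent.Y186.MS.Uni1
import Pool.Agent.Y308.MS.Fsig
import Pool.Agent.H840R2.MoebBS

/-! # Univalent functions with meagre shift sets: category argument (helper186) -/

open Complex Metric Set Filter Topology
open scoped ComplexConjugate
open Pool.Agent.Results.MP_4c43cc_an.ShiftSet

namespace Pool.Agent.Y186.MS

lemma cf_smul {g : ℂ → ℂ} (hg : DifferentiableOn ℂ g (ball 0 1)) (c : ℂ) {w : ℂ} (hw : ‖w‖ < 1) (m : ℕ) :
    cf (fun z => c * g z) w m = c * cf g w m := by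
  unfold cf
  apply coeff_unique (C := fun m => c * taylorCoeff (fun z => g (mob w z)) m)
  intro z hz
  have h1 := (taylorCoeff_hasSum (comp_diff hg hw) hz).mul_left c
  simpa only [mul_assoc] using h1

lemma cf_rot {g : ℂ → ℂ} (hg : DifferentiableOn ℂ g (ball 0 1)) {u w : ℂ} (hu : ‖u‖ = 1) (hw : ‖w‖ < 1) (m : ℕ) :
    cf (fun z => g (u * z)) w m = u ^ m * cf g (u * w) m := by
  have huw : ‖u * w‖ < 1 := by rw [norm_mul, hu, one_mul]; exact hw
  have huu : conj u * u = 1 := by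
    rw [← Complex.normSq_eq_conj_mul_self, Complex.normSq_eq_norm_sq, hu]; norm_num
  unfold cf
  apply coeff_unique (C := fun m => u ^ m * taylorCoeff (fun z => g (mob (u * w) z)) m)
  intro z hz
  have huz : u * z ∈ ball (0:ℂ) 1 := by
    rw [mem_ball_zero_iff, norm_mul, hu, one_mul]; exact mem_ball_zero_iff.mp hz
  have h1 := taylorCoeff_hasSum (comp_diff hg huw) huz
  have e : u * mob w z = mob (u * w) (u * z) := by
    unfold mob
    rw [map_mul, ← mul_div_assoc]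
    congr 1
    · ring
    · linear_combination (-(conj w) * z) * huu * (-1)
  simp only [e]
  refine h1.congr_fun (fun n => ?_)
  rw [mul_pow]; ring

/-- the rotated building block -/
lemma block1 {w : ℂ} (hw0 : 0 < ‖w‖) (hw1 : ‖w‖ < 1) (hgood : Pool.Agent.H840R2.Good ‖w‖) (C : ℝ) :
    ∃ G P : ℂ → ℂ, (∀ z ∈ ball (0:ℂ) 1, HasDerivAt G (P z) z) ∧ (∀ z ∈ ball (0:ℂ) 1, -(1 / 2) ≤ (P z).re) ∧
      (∀ S : Finset ℕ, ∑ n ∈ S, ‖cf G 0 n‖ ≤ 1) ∧ ∃ N : ℕ, C < ∑ n ∈ Finset.range N, ‖cf G w n‖ := by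
  obtain ⟨G, P, h1, h2, h3, N, h4⟩ := block0 hw0 hw1 hgood C
  have hwne : w ≠ 0 := norm_pos_iff.mp hw0
  have hGd : DifferentiableOn ℂ G (ball 0 1) := fun z hz => (h1 z hz).differentiableAt.differentiableWithinAt
  set u : ℂ := (‖w‖ : ℂ) / w with hu
  have hun : ‖u‖ = 1 := by
    rw [hu, norm_div, Complex.norm_real, norm_norm, div_self hw0.ne']
  have hune : u ≠ 0 := by
    rw [← norm_pos_iff, hun]; exact one_pos
  have huw : u * w = (‖w‖ : ℂ) := div_mul_cancel₀ _ hwne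
  have hball : ∀ z ∈ ball (0:ℂ) 1, u * z ∈ ball (0:ℂ) 1 := fun z hz => by
    rw [mem_ball_zero_iff, norm_mul, hun, one_mul]; exact mem_ball_zero_iff.mp hz
  have hGu : DifferentiableOn ℂ (fun z => G (u * z)) (ball 0 1) := by
    refine hGd.comp (by fun_prop) hball
  have hcf : ∀ (v : ℂ), ‖v‖ < 1 → ∀ n, ‖cf (fun z => u⁻¹ * G (u * z)) v n‖ = ‖cf G (u * v) n‖ := by
    intro v hv n
    rw [cf_smul hGu u⁻¹ hv, cf_rot hGd hun hv, norm_mul, norm_mul, norm_pow, norm_inv, hun]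
    simp
  refine ⟨fun z => u⁻¹ * G (u * z), fun z => P (u * z), ?_, fun z hz => h2 _ (hball z hz), ?_, N, ?_⟩
  · intro z hz
    have h5 : HasDerivAt (fun z : ℂ => u * z) u z := by simpa using (hasDerivAt_id z).const_mul u
    have h6 := ((h1 _ (hball z hz)).comp z h5).const_mul u⁻¹
    have e : u⁻¹ * (P (u * z) * u) = P (u * z) := by field_simp
    rw [e] at h6
    exact h6
  · intro S
    refine le_trans (le_of_eq (Finset.sum_congr rfl (fun n _ => ?_))) (h3 S)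
    rw [hcf 0 (by simp) n, mul_zero]
    unfold cf
    simp only [mob_zero]
  · refine h4.trans_le (le_of_eq (Finset.sum_congr rfl (fun n _ => ?_)))
    rw [hcf w hw1 n, huw]

lemma norm_le_one {F : ℂ → ℂ} (hF : DifferentiableOn ℂ F (ball 0 1)) (h : ∀ S : Finset ℕ, ∑ n ∈ S, ‖cf F 0 n‖ ≤ 1)
    {z : ℂ} (hz : z ∈ ball (0:ℂ) 1) : ‖F z‖ ≤ 1 := by
  have e : ∀ n, cf F 0 n = taylorCoeff F n := fun n => by unfold cf; simp only [mob_zero]
  simp only [e] at h
  have hs : Summable (fun n => ‖taylorCoeff F n‖) := summable_of_sum_le (fun _ => norm_nonneg _) h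
  have h1 := taylorCoeff_hasSum hF hz
  have hz' := mem_ball_zero_iff.mp hz
  have hle : ∀ n, ‖taylorCoeff F n * z ^ n‖ ≤ ‖taylorCoeff F n‖ := fun n => by
    rw [norm_mul, norm_pow]
    exact mul_le_of_le_one_right (norm_nonneg _) (pow_le_one₀ (norm_nonneg _) hz'.le)
  rw [← h1.tsum_eq]
  exact (tsum_of_norm_bounded hs.hasSum hle).trans (hs.tsum_le_of_sum_le h)

lemma cf_tsum {G : ℕ → ℂ → ℂ} {u : ℕ → ℝ} (hu : Summable u) (hG : ∀ j, DifferentiableOn ℂ (G j) (ball 0 1))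
    (hb : ∀ j, ∀ z ∈ ball (0:ℂ) 1, ‖G j z‖ ≤ u j) {w : ℂ} (hw : ‖w‖ < 1) (m : ℕ) :
    Tendsto (fun N => ∑ i ∈ Finset.range N, cf (G i) w m) atTop (𝓝 (cf (fun z => ∑' j, G j z) w m)) := by
  have htd : ∀ N, DifferentiableOn ℂ (fun z => ∑' j, G (j + N) z) (ball 0 1) := fun N =>
    differentiableOn_tsum_of_summable_norm ((summable_nat_add_iff N).mpr hu) (fun j => hG _) isOpen_ball
      (fun j z hz => hb _ z hz)
  have hsm : ∀ z ∈ ball (0:ℂ) 1, Summable (fun j => G j z) := fun z hz =>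
    Summable.of_norm_bounded hu (fun j => hb j z hz)
  have hdec : ∀ N, cf (fun z => ∑' j, G j z) w m = ∑ i ∈ Finset.range N, cf (G i) w m
      + cf (fun z => ∑' j, G (j + N) z) w m := by
    intro N
    rw [← cf_sum hG hw, ← cf_add (DifferentiableOn.fun_sum (fun i _ => hG i)) (htd N) hw]
    refine cf_congr ((DifferentiableOn.fun_sum (fun i _ => hG i)).add (htd N)) (fun z hz => ?_) hw m
    exact ((hsm z hz).sum_add_tsum_nat_add N).symm
  have hbd : ∀ N, ‖cf (fun z => ∑' j, G (j + N) z) w m‖ ≤ (∑' j, u (j + N)) * 2 ^ m := by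
    intro N
    refine cf_cauchy (htd N) hw (fun z hz => ?_) m
    have hmz : mob w z ∈ ball (0:ℂ) 1 := mem_ball_zero_iff.mpr (mob_norm_lt hw (by rw [hz]; norm_num))
    exact tsum_of_norm_bounded ((summable_nat_add_iff N).mpr hu).hasSum (fun j => hb _ _ hmz)
  have h0 : Tendsto (fun N => cf (fun z => ∑' j, G (j + N) z) w m) atTop (𝓝 0) := by
    refine squeeze_zero_norm hbd ?_
    have := (tendsto_sum_nat_add u).mul_const ((2:ℝ) ^ m)
    simpa using this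
  have h4 : (fun N => ∑ i ∈ Finset.range N, cf (G i) w m)
      = fun N => cf (fun z => ∑' j, G j z) w m - cf (fun z => ∑' j, G (j + N) z) w m := by
    ext N; rw [hdec N]; ring
  rw [h4]
  simpa using h0.const_sub (cf (fun z => ∑' j, G j z) w m)

/-- linear combinations -/
noncomputable def Phi (F : ℕ → ℂ → ℂ) (x : ℕ → ℝ) (z : ℂ) : ℂ := ∑' j, (x j : ℂ) * F j z

lemma term_le {F : ℕ → ℂ → ℂ} (hb : ∀ j, ∀ z ∈ ball (0:ℂ) 1, ‖F j z‖ ≤ 1) (x : ℕ → ℝ) (j : ℕ) (z : ℂ)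
    (hz : z ∈ ball (0:ℂ) 1) : ‖(x j : ℂ) * F j z‖ ≤ |x j| := by
  rw [norm_mul, Complex.norm_real, Real.norm_eq_abs]
  exact mul_le_of_le_one_right (abs_nonneg _) (hb j z hz)

lemma Phi_diff {F : ℕ → ℂ → ℂ} (hF : ∀ j, DifferentiableOn ℂ (F j) (ball 0 1))
    (hb : ∀ j, ∀ z ∈ ball (0:ℂ) 1, ‖F j z‖ ≤ 1) {x : ℕ → ℝ} (hx : Summable (fun j => |x j|)) :
    DifferentiableOn ℂ (Phi F x) (ball 0 1) :=
  differentiableOn_tsum_of_summable_norm hx (fun j => (hF j).const_mul _) isOpen_ball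
    (fun j z hz => term_le hb x j z hz)

lemma cf_le {F : ℕ → ℂ → ℂ} (hF : ∀ j, DifferentiableOn ℂ (F j) (ball 0 1))
    (hb : ∀ j, ∀ z ∈ ball (0:ℂ) 1, ‖F j z‖ ≤ 1) {w : ℂ} (hw : ‖w‖ < 1) (m j : ℕ) : ‖cf (F j) w m‖ ≤ 2 ^ m := by
  have := cf_cauchy (hF j) hw (C := 1) (fun z hz =>
    hb j _ (mem_ball_zero_iff.mpr (mob_norm_lt hw (by rw [hz]; norm_num)))) m
  simpa using this

lemma cf_Phi {F : ℕ → ℂ → ℂ} (hF : ∀ j, DifferentiableOn ℂ (F j) (ball 0 1))
    (hb : ∀ j, ∀ z ∈ ball (0:ℂ) 1, ‖F j z‖ ≤ 1) {x : ℕ → ℝ} (hx : Summable (fun j => |x j|)) {w : ℂ}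
    (hw : ‖w‖ < 1) (m : ℕ) : cf (Phi F x) w m = ∑' j, (x j : ℂ) * cf (F j) w m := by
  have h1 := cf_tsum hx (G := fun j z => (x j : ℂ) * F j z) (fun j => (hF j).const_mul _)
    (fun j z hz => term_le hb x j z hz) hw m
  simp only [cf_smul (hF _) _ hw] at h1
  have hs : Summable (fun j => (x j : ℂ) * cf (F j) w m) := by
    refine Summable.of_norm_bounded (hx.mul_right (2 ^ m)) (fun j => ?_)
    rw [norm_mul, Complex.norm_real, Real.norm_eq_abs]
    exact mul_le_mul_of_nonneg_left (cf_le hF hb hw m j) (abs_nonneg _)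
  exact tendsto_nhds_unique h1 hs.hasSum.tendsto_sum_nat

end Pool.Agent.Y186.MS
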