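import Pool.Agent.Y186.MS.Uni2

/-! # Univalent functions with meagre shift sets: the theorem (helper186) -/

open Complex Metric Set Filter Topology
open scoped ComplexConjugate
open Pool.Agent.Results.MP_4c43cc_an.ShiftSet

namespace Pool.Agent.Y186.MS

/-- the cone of nonnegative summable sequences -/
abbrev Cone : Type := {x : Pool.Agent.H840R2.L1 // ∀ j, 0 ≤ x j}

lemma coord_cont (j : ℕ) : Continuous (fun x : Pool.Agent.H840R2.L1 => x j) := by
  have hb : ∀ i, ‖(if i = j then (1:ℂ) else 0)‖ ≤ 1 := fun i => by split_ifs <;> simp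
  have h1 : (fun x : Pool.Agent.H840R2.L1 => x j)
      = fun x => (Pool.Agent.H840R2.fun1 (fun i => if i = j then (1:ℂ) else 0) 1 hb x).re := by
    ext x
    rw [Pool.Agent.H840R2.fun1_apply, tsum_eq_single j (fun i hi => by simp [hi])]
    simp
  rw [h1]
  exact Complex.continuous_re.comp (ContinuousLinearMap.continuous _)

instance : CompleteSpace Cone := by
  have : IsClosed {x : Pool.Agent.H840R2.L1 | ∀ j, 0 ≤ x j} := by
    rw [Set.ofPred_forall]
    exact isClosed_iInter (fun j => isClosed_le continuous_const (coord_cont j))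
  exact this.completeSpace_coe

/-- the category argument -/
theorem baire {F : ℕ → ℂ → ℂ} (hF : ∀ j, DifferentiableOn ℂ (F j) (ball 0 1))
    (hb : ∀ j, ∀ z ∈ ball (0:ℂ) 1, ‖F j z‖ ≤ 1) {w : ℕ → ℂ} (hw : ∀ i, ‖w i‖ < 1)
    (hunb : ∀ i, ∀ C : ℝ, ∃ j N, C < ∑ n ∈ Finset.range N, ‖cf (F j) (w i) n‖) :
    ∃ x : ℕ → ℝ, (∀ j, 0 ≤ x j) ∧ Summable x ∧ ∑' j, x j ≤ 1 ∧
      ∀ i, ¬ Summable (fun n => ‖cf (Phi F x) (w i) n‖) := by
  let L : ℕ → ℕ → Pool.Agent.H840R2.L1 →L[ℝ] ℂ := fun i n =>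
    Pool.Agent.H840R2.fun1 (fun j => cf (F j) (w i) n) (2 ^ n) (fun j => cf_le hF hb (hw i) n j)
  have hL : ∀ i n (x : Pool.Agent.H840R2.L1), L i n x = cf (Phi F x) (w i) n := by
    intro i n x
    rw [cf_Phi hF hb (Pool.Agent.H840R2.L1.summable x) (hw i)]
    exact Pool.Agent.H840R2.fun1_apply _ _ _ x
  let O : ℕ × ℕ → Set Cone := fun q => {x | ∃ N : ℕ, (q.2:ℝ) < ∑ n ∈ Finset.range N, ‖L q.1 n x.1‖}
  have hO : ∀ q, IsOpen (O q) := by
    intro q
    have : O q = ⋃ N : ℕ, {x : Cone | (q.2:ℝ) < ∑ n ∈ Finset.range N, ‖L q.1 n x.1‖} := by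
      ext x; simp [O]
    rw [this]
    refine isOpen_iUnion (fun N => isOpen_lt continuous_const ?_)
    exact continuous_finsetSum _ (fun n _ => ((L q.1 n).continuous.comp continuous_subtype_val).norm)
  have hd : ∀ q, Dense (O q) := by
    intro q
    rw [Metric.dense_iff]
    intro x r hr
    by_cases hx : x ∈ O q
    · exact ⟨x, mem_ball_self hr, hx⟩
    · have hx' : ∀ N : ℕ, ∑ n ∈ Finset.range N, ‖L q.1 n x.1‖ ≤ q.2 := by
        intro N
        by_contra h
        exact hx ⟨N, not_le.mp h⟩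
      obtain ⟨j, N, hj⟩ := hunb q.1 ((2 * q.2 + 1) / (r / 2))
      set e : Pool.Agent.H840R2.L1 := lp.single 1 j (r / 2) with he
      have heval : ∀ i, e i = if i = j then r / 2 else 0 := by
        intro i
        rw [he, lp.single_apply]
        simp [Pi.single_apply]
      have hnn : ∀ i, 0 ≤ (x.1 + e) i := by
        intro i
        have h1 : (x.1 + e) i = x.1 i + e i := rfl
        rw [h1, heval]
        have := x.2 i
        split_ifs <;> linarith
      have hen : ‖e‖ = r / 2 := by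
        rw [he, lp.norm_single (by simp), Real.norm_eq_abs, abs_of_pos (by linarith)]
      have hLe : ∀ n, L q.1 n e = ((r / 2 : ℝ) : ℂ) * cf (F j) (w q.1) n := by
        intro n
        have h1 : L q.1 n e = ∑' i, (e i : ℂ) * cf (F i) (w q.1) n := Pool.Agent.H840R2.fun1_apply _ _ _ e
        rw [h1, tsum_eq_single j (fun i hi => by rw [heval, if_neg hi]; simp), heval, if_pos rfl]
      refine ⟨⟨x.1 + e, hnn⟩, ?_, N, ?_⟩
      · rw [mem_ball, Subtype.dist_eq, dist_eq_norm]
        simp only [add_sub_cancel_left]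
        rw [hen]; linarith
      · have h2 : ∀ n, (r / 2) * ‖cf (F j) (w q.1) n‖ ≤ ‖L q.1 n (x.1 + e)‖ + ‖L q.1 n x.1‖ := by
          intro n
          have h3 : ((r / 2 : ℝ) : ℂ) * cf (F j) (w q.1) n = L q.1 n (x.1 + e) - L q.1 n x.1 := by
            rw [map_add, hLe]; ring
          have h4 : (r / 2) * ‖cf (F j) (w q.1) n‖ = ‖((r / 2 : ℝ) : ℂ) * cf (F j) (w q.1) n‖ := by
            rw [norm_mul, Complex.norm_real, Real.norm_eq_abs, abs_of_pos (by linarith)]
          rw [h4, h3]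
          exact norm_sub_le _ _
        have h5 := Finset.sum_le_sum (s := Finset.range N) (fun n _ => h2 n)
        rw [← Finset.mul_sum, Finset.sum_add_distrib] at h5
        have h6 := hx' N
        rw [div_lt_iff₀ (by linarith)] at hj
        show (q.2:ℝ) < ∑ n ∈ Finset.range N, ‖L q.1 n (x.1 + e)‖
        have h7 : (0:ℝ) ≤ q.2 := by positivity
        nlinarith
  have hdense : Dense (⋂ q, O q) := dense_iInter_of_isOpen hO hd
  obtain ⟨x, hx1, hx2⟩ := hdense.inter_open_nonempty (ball (⟨0, fun j => le_rfl⟩ : Cone) 1) isOpen_ball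
    ⟨_, mem_ball_self one_pos⟩
  have hs := Pool.Agent.H840R2.L1.summable x.1
  have habs : ∀ j, |x.1 j| = x.1 j := fun j => abs_of_nonneg (x.2 j)
  have hxn : ‖x.1‖ < 1 := by
    rw [mem_ball, Subtype.dist_eq, dist_eq_norm, sub_zero] at hx1
    exact hx1
  refine ⟨fun j => x.1 j, x.2, by simpa only [habs] using hs, ?_, ?_⟩
  · rw [Pool.Agent.H840R2.L1.norm_eq] at hxn
    simp only [habs] at hxn
    exact hxn.le
  · intro i hsum
    obtain ⟨C, hC⟩ := exists_nat_gt (∑' n, ‖cf (Phi F (fun j => x.1 j)) (w i) n‖)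
    obtain ⟨N, hN⟩ := Set.mem_iInter.mp hx2 (i, C)
    simp only [hL] at hN
    have := hsum.sum_le_tsum (Finset.range N) (fun _ _ => norm_nonneg _)
    linarith

lemma meagre_of {f : ℂ → ℂ} (hG0 : IsGδ (ball (0:ℂ) 1 \ shiftSet f))
    (hsub : ball (0:ℂ) 1 ⊆ closure (ball (0:ℂ) 1 \ shiftSet f)) : IsMeagre (shiftSet f) := by
  have hG : IsGδ ((ball (0:ℂ) 1 \ shiftSet f) ∪ (closedBall 0 1)ᶜ) :=
    hG0.union isClosed_closedBall.isOpen_compl.isGδ
  have hD : Dense ((ball (0:ℂ) 1 \ shiftSet f) ∪ (closedBall 0 1)ᶜ) := by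
    intro x
    by_cases hx : x ∈ closedBall (0:ℂ) 1
    · have h3 : x ∈ closure (ball (0:ℂ) 1) := by
        rw [closure_ball _ one_ne_zero]; exact hx
      have h4 : closure (ball (0:ℂ) 1) ⊆ closure (ball (0:ℂ) 1 \ shiftSet f) := closure_minimal hsub isClosed_closure
      exact closure_mono Set.subset_union_left (h4 h3)
    · exact subset_closure (Or.inr hx)
  have hres := residual_of_dense_Gδ hG hD
  refine Filter.mem_of_superset hres ?_
  rintro x (hx | hx) hxs
  · exact hx.2 hxs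
  · exact hx (ball_subset_closedBall hxs.1)

/-- a univalent function with a nonempty meagre shift set -/
theorem uni : ∃ f : ℂ → ℂ, DifferentiableOn ℂ f (ball 0 1) ∧ InjOn f (ball 0 1) ∧
    (∀ z ∈ ball (0:ℂ) 1, 0 < (deriv f z).re) ∧ (0:ℂ) ∈ shiftSet f ∧ IsMeagre (shiftSet f) := by
  -- the good points
  set Sg : Set ℂ := {w | 0 < ‖w‖ ∧ ‖w‖ < 1 ∧ Pool.Agent.H840R2.Good ‖w‖} with hSg
  have hne : Nonempty Sg := by
    obtain ⟨w, h1, h2, h3, _⟩ := good_dense (x := 0) (by simp) one_pos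
    exact ⟨⟨w, h1, h2, h3⟩⟩
  obtain ⟨v, hv⟩ := TopologicalSpace.exists_dense_seq Sg
  set w : ℕ → ℂ := fun i => (v i : ℂ) with hwdef
  have hw : ∀ i, ‖w i‖ < 1 := fun i => (v i).2.2.1
  have hwd : ball (0:ℂ) 1 ⊆ closure (Set.range w) := by
    intro x hx
    rw [Metric.mem_closure_iff]
    intro ε hε
    obtain ⟨y, h1, h2, h3, h4⟩ := good_dense (mem_ball_zero_iff.mp hx) (half_pos hε)
    obtain ⟨i, hi⟩ := Metric.denseRange_iff.mp hv ⟨y, h1, h2, h3⟩ (ε / 2) (half_pos hε)
    refine ⟨w i, ⟨i, rfl⟩, ?_⟩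
    have h5 : dist y (w i) < ε / 2 := hi
    have h6 := dist_triangle x y (w i)
    rw [dist_comm] at h4
    linarith
  -- the blocks
  choose F P hFP hPre hS hN using fun (j : ℕ) =>
    block1 (w := w (Nat.unpair j).1) (v _).2.1 (v _).2.2.1 (v _).2.2.2 ((Nat.unpair j).2 : ℝ)
  have hF : ∀ j, DifferentiableOn ℂ (F j) (ball 0 1) := fun j z hz =>
    (hFP j z hz).differentiableAt.differentiableWithinAt
  have hb : ∀ j, ∀ z ∈ ball (0:ℂ) 1, ‖F j z‖ ≤ 1 := fun j z hz => norm_le_one (hF j) (hS j) hz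
  obtain ⟨x, hx0, hxs, hx1, hxbad⟩ := baire hF hb hw (fun i C => by
    obtain ⟨l, hl⟩ := exists_nat_gt C
    obtain ⟨N, hN'⟩ := hN (Nat.pair i l)
    rw [Nat.unpair_pair] at hN'
    exact ⟨Nat.pair i l, N, hl.trans hN'⟩)
  have habs : ∀ j, |x j| = x j := fun j => abs_of_nonneg (hx0 j)
  have hxa : Summable (fun j => |x j|) := by simpa only [habs] using hxs
  have hPd : DifferentiableOn ℂ (Phi F x) (ball 0 1) := Phi_diff hF hb hxa
  -- the identity as a polynomial
  set one : ℂ → ℂ := pol {1} (fun _ => 1) with hone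
  have hone1 : ∀ z, one z = z := fun z => by simp [hone, pol]
  have honed : DifferentiableOn ℂ one (ball 0 1) := (pol_diff _ _).differentiableOn
  have hones : ∀ v : ℂ, ‖v‖ < 1 → Summable (fun m => ‖cf one v m‖) := fun v hv => fin_bound {1} (fun _ => 1) hv
  set f : ℂ → ℂ := fun z => one z + Phi F x z with hf
  have hfd : DifferentiableOn ℂ f (ball 0 1) := honed.add hPd
  have hcf : ∀ v : ℂ, ‖v‖ < 1 → ∀ m, cf f v m = cf one v m + cf (Phi F x) v m := fun v hv m =>
    cf_add honed hPd hv m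
  -- the derivative
  have hder : ∀ z ∈ ball (0:ℂ) 1, HasDerivAt f (1 + deriv (Phi F x) z) z := by
    intro z hz
    have h1 : HasDerivAt one 1 z := by
      have : one = fun z => z := funext hone1
      rw [this]; exact hasDerivAt_id z
    exact h1.add ((hPd.differentiableAt (isOpen_ball.mem_nhds hz)).hasDerivAt)
  have hre : ∀ z ∈ ball (0:ℂ) 1, 0 < (1 + deriv (Phi F x) z).re := by
    intro z hz
    have h1 : HasSum (fun j => deriv (fun z => (x j : ℂ) * F j z) z) (deriv (Phi F x) z) :=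
      hasSum_deriv_of_summable_norm hxa (fun j => (hF j).const_mul _) isOpen_ball
        (fun j z hz => term_le hb x j z hz) hz
    have h2 : ∀ j, deriv (fun z => (x j : ℂ) * F j z) z = (x j : ℂ) * P j z := fun j =>
      ((hFP j z hz).const_mul _).deriv
    simp only [h2] at h1
    have h3 := Complex.hasSum_re h1
    have h4 : ∀ j, -(1 / 2) * x j ≤ ((x j : ℂ) * P j z).re := fun j => by
      rw [Complex.re_ofReal_mul]
      have := hPre j z hz
      nlinarith [hx0 j]
    have h5 := hasSum_le h4 (hxs.hasSum.mul_left (-(1 / 2))) h3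
    rw [Complex.add_re, Complex.one_re]
    linarith
  refine ⟨f, hfd, Pool.Agent.H840R2.noshiro hder hre, fun z hz => by rw [(hder z hz).deriv]; exact hre z hz, ?_, ?_⟩
  · -- the shift 0
    have h00 : ‖(0:ℂ)‖ < 1 := by simp
    refine ⟨by simp, ?_⟩
    change Summable (fun m => ‖cf f 0 m‖)
    refine Summable.of_nonneg_of_le (fun _ => norm_nonneg _) (fun m => ?_) ((hones 0 h00).add
      (summable_of_sum_le (f := fun m => ‖cf (Phi F x) 0 m‖) (c := 1) (fun _ => norm_nonneg _) (fun S => ?_)))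
    · rw [hcf 0 h00]; exact norm_add_le _ _
    · have hsj : ∀ m, Summable (fun j => x j * ‖cf (F j) 0 m‖) := fun m => by
        refine Summable.of_nonneg_of_le (fun j => mul_nonneg (hx0 j) (norm_nonneg _)) (fun j => ?_)
          (hxs.mul_right (2 ^ m))
        exact mul_le_mul_of_nonneg_left (cf_le hF hb h00 m j) (hx0 j)
      have h1 : ∀ m, ‖cf (Phi F x) 0 m‖ ≤ ∑' j, x j * ‖cf (F j) 0 m‖ := fun m => by
        rw [cf_Phi hF hb hxa h00]
        refine tsum_of_norm_bounded (hsj m).hasSum (fun j => ?_)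
        rw [norm_mul, Complex.norm_real, Real.norm_eq_abs, habs]
      calc ∑ m ∈ S, ‖cf (Phi F x) 0 m‖ ≤ ∑ m ∈ S, ∑' j, x j * ‖cf (F j) 0 m‖ := Finset.sum_le_sum (fun m _ => h1 m)
        _ = ∑' j, ∑ m ∈ S, x j * ‖cf (F j) 0 m‖ := (Summable.tsum_finsetSum (fun m _ => hsj m)).symm
        _ ≤ ∑' j, x j := by
            refine Summable.tsum_le_tsum (fun j => ?_) (summable_sum (fun m _ => hsj m)) hxs
            rw [← Finset.mul_sum]
            exact mul_le_of_le_one_right (hx0 j) (hS j S)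
        _ ≤ 1 := hx1
  · -- meagreness
    refine meagre_of (Pool.Agent.Y308.MS.t_FSIG f hfd) (hwd.trans (closure_mono ?_))
    rintro _ ⟨i, rfl⟩
    refine ⟨mem_ball_zero_iff.mpr (hw i), fun hmem => hxbad i ?_⟩
    have h1 : Summable (fun m => ‖cf f (w i) m‖) := hmem.2
    refine Summable.of_nonneg_of_le (fun _ => norm_nonneg _) (fun m => ?_) (h1.add (hones (w i) (hw i)))
    have h2 : cf (Phi F x) (w i) m = cf f (w i) m - cf one (w i) m := by
      rw [hcf (w i) (hw i)]; ring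
    rw [h2]
    exact norm_sub_le _ _

end Pool.Agent.Y186.MS
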